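import Mathlib

set_option autoImplicit false

open MeasureTheory Filter Topology Complex Set
open scoped ComplexConjugate

namespace Q97.RG

noncomputable section

/-- the function on the circle -/
def cf (A ψ θ x : ℝ) : ℂ := cexp (θ * x * I) * Complex.cosh (A * x - ψ * I)

theorem cf_cont (A ψ θ : ℝ) : Continuous (cf A ψ θ) := by
  unfold cf
  fun_prop

/-- the nodes -/
def vn (θ : ℝ) (n : ℤ) : ℝ := Real.pi * n - θ

theorem cf_eq (A ψ θ x : ℝ) : cf A ψ θ x =
    (cexp (-(ψ * I)) * cexp ((A + θ * I) * x) + cexp (ψ * I) * cexp ((-A + θ * I) * x)) / 2 := by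
  unfold cf
  rw [Complex.cosh, ← Complex.exp_add, ← Complex.exp_add, mul_div_assoc', mul_add,
    ← Complex.exp_add, ← Complex.exp_add]
  congr 3 <;> ring_nf

/-- the phase -/
def th (A ψ : ℝ) : ℝ := -(Complex.cosh (A - ψ * I)).arg

theorem th_eq (A ψ : ℝ) : cexp (th A ψ * I) * Complex.cosh (A - ψ * I) =
    (‖Complex.cosh (A - ψ * I)‖ : ℂ) := by
  set z := Complex.cosh (A - ψ * I) with hz
  have h := Complex.norm_mul_exp_arg_mul_I z
  have e : th A ψ = -z.arg := rfl
  rw [e]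
  calc cexp ((-z.arg : ℝ) * I) * z = cexp ((-z.arg : ℝ) * I) * (‖z‖ * cexp (z.arg * I)) := by
        rw [h]
    _ = ‖z‖ * (cexp (z.arg * I) * cexp ((-z.arg : ℝ) * I)) := by ring
    _ = ‖z‖ := by
        rw [← Complex.exp_add]
        push_cast
        rw [neg_mul, add_neg_cancel, Complex.exp_zero, mul_one]

theorem cf_one (A ψ : ℝ) : cf A ψ (th A ψ) 1 = (‖Complex.cosh (A - ψ * I)‖ : ℂ) := by
  unfold cf
  rw [← th_eq]
  push_cast
  rw [mul_one, mul_one]

theorem cf_neg (A ψ θ x : ℝ) : cf A ψ θ (-x) = conj (cf A ψ θ x) := by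
  unfold cf
  rw [map_mul, ← Complex.exp_conj, ← Complex.cosh_conj]
  simp only [map_sub, map_mul, Complex.conj_ofReal, Complex.conj_I]
  push_cast
  rw [← Complex.cosh_neg (A * x - ψ * -I)]
  congr 2 <;> ring

theorem cf_neg_one (A ψ : ℝ) : cf A ψ (th A ψ) (-1) = (‖Complex.cosh (A - ψ * I)‖ : ℂ) := by
  rw [cf_neg, cf_one, Complex.conj_ofReal]

/-- the real number `S` -/
def sn (A ψ : ℝ) : ℂ := cexp (-(ψ * I)) * (cexp (A + th A ψ * I) - cexp (-(A + th A ψ * I))) / 2

theorem sn_real (A ψ : ℝ) : conj (sn A ψ) = sn A ψ := by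
  set θ := th A ψ with hθ
  have h1 : cf A ψ θ 1 = cf A ψ θ (-1) := by rw [hθ, cf_one, cf_neg_one]
  rw [cf_eq, cf_eq] at h1
  have h2 : conj (sn A ψ) = (cexp (ψ * I) * cexp ((-A + θ * I) * (-1 : ℝ)) -
      cexp (ψ * I) * cexp ((-A + θ * I) * (1 : ℝ))) / 2 := by
    unfold sn
    rw [← hθ]
    simp only [map_mul, map_sub, map_div₀, ← Complex.exp_conj, map_neg, map_add, Complex.conj_ofReal,
      Complex.conj_I, map_ofNat, mul_sub]
    push_cast
    congr 3 <;> ring_nf
  have h3 : sn A ψ = (cexp (-(ψ * I)) * cexp ((A + θ * I) * (1 : ℝ)) -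
      cexp (-(ψ * I)) * cexp ((A + θ * I) * (-1 : ℝ))) / 2 := by
    unfold sn
    rw [← hθ, mul_sub]
    push_cast
    congr 3 <;> ring_nf
  rw [h2, h3]
  linear_combination -h1

/-- the sign -/
def sg (n : ℤ) : ℂ := cexp (-(Real.pi * n * I))

theorem sg_sq (n : ℤ) : sg n * sg n = 1 := by
  unfold sg
  rw [← Complex.exp_add]
  have : -(Real.pi * n * I) + -(Real.pi * n * I) = ((-n : ℤ) : ℂ) * (2 * Real.pi * I) := by
    push_cast
    ring
  rw [this, Complex.exp_int_mul_two_pi_mul_I]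

theorem sg_inv (n : ℤ) : cexp (Real.pi * n * I) = sg n := by
  have h1 : cexp (Real.pi * n * I) * sg n = 1 := by
    unfold sg
    rw [← Complex.exp_add, add_neg_cancel, Complex.exp_zero]
  have h2 := sg_sq n
  have h3 : sg n ≠ 0 := Complex.exp_ne_zero _
  exact mul_right_cancel₀ h3 (h1.trans h2.symm)

theorem sg_norm (n : ℤ) : ‖sg n‖ = 1 := by
  unfold sg
  rw [Complex.norm_exp]
  simp

theorem int_cf {A : ℝ} (hA : 0 < A) (ψ : ℝ) (n : ℤ) :
    ∫ x in (-1 : ℝ)..1, cexp (-(Real.pi * n * x * I)) * cf A ψ (th A ψ) x =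
      2 * (sg n * (sn A ψ * (A / (A ^ 2 + (vn (th A ψ) n) ^ 2) : ℝ))) := by
  set θ := th A ψ with hθ
  set w : ℝ := vn θ n with hw
  have hA' : (A : ℂ) ≠ 0 := by exact_mod_cast hA.ne'
  have hne1 : (A : ℂ) - w * I ≠ 0 := by
    intro h
    have := congrArg Complex.re h
    simp at this
    exact hA.ne' this
  have hne2 : -(A : ℂ) - w * I ≠ 0 := by
    intro h
    have := congrArg Complex.re h
    simp at this
    exact hA.ne' this
  have hne3 : (A : ℂ) + w * I ≠ 0 := by
    intro h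
    have := congrArg Complex.re h
    simp at this
    exact hA.ne' this
  have e1 : ∀ x : ℝ, cexp (-(Real.pi * n * x * I)) * cf A ψ θ x =
      (cexp (-(ψ * I)) / 2) * cexp ((A - w * I) * x) + (cexp (ψ * I) / 2) *
        cexp ((-A - w * I) * x) := by
    intro x
    rw [cf_eq, hw, vn]
    push_cast
    have a1 : cexp (-(Real.pi * n * x * I)) * cexp ((A + θ * I) * x) =
        cexp ((A - (Real.pi * n - θ) * I) * x) := by
      rw [← Complex.exp_add]
      congr 1
      ring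
    have a2 : cexp (-(Real.pi * n * x * I)) * cexp ((-A + θ * I) * x) =
        cexp ((-A - (Real.pi * n - θ) * I) * x) := by
      rw [← Complex.exp_add]
      congr 1
      ring
    rw [← a1, ← a2]
    ring
  simp_rw [e1]
  have c1 : ∀ c : ℂ, IntervalIntegrable (fun x : ℝ => cexp (c * x)) volume (-1) 1 := by
    intro c
    exact (Continuous.intervalIntegrable (by fun_prop) _ _)
  rw [intervalIntegral.integral_add ((c1 _).const_mul _) ((c1 _).const_mul _),
    intervalIntegral.integral_const_mul, intervalIntegral.integral_const_mul,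
    integral_exp_mul_complex hne1, integral_exp_mul_complex hne2]
  have b1 : cexp ((A - w * I) * (1 : ℝ)) = sg n * cexp (A + θ * I) := by
    unfold sg
    rw [← Complex.exp_add]
    congr 1
    rw [hw, vn]
    push_cast
    ring
  have b2 : cexp ((A - w * I) * (-1 : ℝ)) = sg n * cexp (-(A + θ * I)) := by
    rw [← sg_inv, ← Complex.exp_add]
    congr 1
    rw [hw, vn]
    push_cast
    ring
  have b3 : cexp ((-A - w * I) * (1 : ℝ)) = sg n * cexp (-A + θ * I) := by
    unfold sg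
    rw [← Complex.exp_add]
    congr 1
    rw [hw, vn]
    push_cast
    ring
  have b4 : cexp ((-A - w * I) * (-1 : ℝ)) = sg n * cexp (A - θ * I) := by
    rw [← sg_inv, ← Complex.exp_add]
    congr 1
    rw [hw, vn]
    push_cast
    ring
  have h2 : sn A ψ = cexp (ψ * I) * (cexp (A - θ * I) - cexp (-A + θ * I)) / 2 := by
    rw [← sn_real]
    unfold sn
    rw [← hθ]
    simp only [map_mul, map_sub, map_div₀, ← Complex.exp_conj, map_neg, map_add, Complex.conj_ofReal,
      Complex.conj_I, map_ofNat]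
    congr 4 <;> ring_nf
  have h1 : sn A ψ = cexp (-(ψ * I)) * (cexp (A + θ * I) - cexp (-(A + θ * I))) / 2 := rfl
  rw [b1, b2, b3, b4]
  have f1 : cexp (-(ψ * I)) / 2 * ((sg n * cexp (A + θ * I) - sg n * cexp (-(A + θ * I))) /
      (A - w * I)) = sg n * sn A ψ / (A - w * I) := by
    rw [h1]
    ring
  have f2 : cexp (ψ * I) / 2 * ((sg n * cexp (-A + θ * I) - sg n * cexp (A - θ * I)) /
      (-A - w * I)) = sg n * sn A ψ / (A + w * I) := by
    rw [h2]
    have : (-(A : ℂ) - w * I) = -(A + w * I) := by ring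
    rw [this]
    field_simp
    ring
  rw [f1, f2]
  have hne4 : (A : ℂ) ^ 2 + (w : ℂ) ^ 2 ≠ 0 := by
    have : 0 < A ^ 2 + w ^ 2 := by positivity
    exact_mod_cast this.ne'
  have e5 : ((A : ℂ) - w * I) * (A + w * I) = A ^ 2 + w ^ 2 := by
    have := Complex.I_sq
    linear_combination (-(w : ℂ) ^ 2) * this
  push_cast
  rw [div_add_div _ _ hne1 hne3, e5]
  field_simp
  ring

/-- the coefficients -/
def cc (A ψ : ℝ) (n : ℤ) : ℂ := sg n * (sn A ψ * (A / (A ^ 2 + (vn (th A ψ) n) ^ 2) : ℝ))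

theorem sum_inv {A : ℝ} (hA : 0 < A) (θ : ℝ) : Summable fun n : ℤ => A / (A ^ 2 + (vn θ n) ^ 2) := by
  have hπ := Real.pi_pos
  have h1 := (Real.summable_one_div_int_add_rpow (-(θ / Real.pi)) 2).mpr (by norm_num)
  have h2 : Summable fun n : ℤ => A / Real.pi ^ 2 * (1 / |(n : ℝ) + -(θ / Real.pi)| ^ (2 : ℝ)) :=
    h1.mul_left _
  refine Summable.of_norm_bounded_eventually h2 ?_
  have hfin : {n : ℤ | vn θ n = 0}.Finite := by
    refine Set.Subsingleton.finite fun a ha b hb => ?_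
    rw [mem_ofPred_eq, vn] at ha hb
    have h3 : Real.pi * (a : ℝ) = Real.pi * b := by linarith
    have h4 := mul_left_cancel₀ hπ.ne' h3
    exact_mod_cast h4
  filter_upwards [hfin.compl_mem_cofinite] with n hn
  have hv : vn θ n ≠ 0 := hn
  have hv2 : 0 < (vn θ n) ^ 2 := by positivity
  rw [Real.norm_of_nonneg (by positivity)]
  have e1 : |(n : ℝ) + -(θ / Real.pi)| ^ (2 : ℝ) = (vn θ n) ^ 2 / Real.pi ^ 2 := by
    rw [Real.rpow_two, sq_abs, vn]
    field_simp
    ring
  rw [e1]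
  have e2 : A / Real.pi ^ 2 * (1 / ((vn θ n) ^ 2 / Real.pi ^ 2)) = A / (vn θ n) ^ 2 := by
    field_simp
  rw [e2]
  exact div_le_div_of_nonneg_left hA.le hv2 (by nlinarith)

theorem cc_norm {A : ℝ} (hA : 0 < A) (ψ : ℝ) (n : ℤ) :
    ‖cc A ψ n‖ = ‖sn A ψ‖ * (A / (A ^ 2 + (vn (th A ψ) n) ^ 2)) := by
  unfold cc
  rw [norm_mul, norm_mul, sg_norm, one_mul, Complex.norm_real, Real.norm_of_nonneg (by positivity)]

theorem cc_summable {A : ℝ} (hA : 0 < A) (ψ : ℝ) : Summable (cc A ψ) := by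
  refine Summable.of_norm ?_
  simp_rw [cc_norm hA]
  exact (sum_inv hA _).mul_left _

theorem circ {A : ℝ} (hA : 0 < A) (ψ : ℝ) {x : ℝ} (hx : x ∈ Icc (-1 : ℝ) 1) :
    HasSum (fun n : ℤ => cc A ψ n * cexp (Real.pi * n * x * I)) (cf A ψ (th A ψ) x) := by
  have : Fact (0 < (2 : ℝ)) := ⟨by norm_num⟩
  set f := cf A ψ (th A ψ) with hf
  have hper : f (-1) = f (-1 + 2) := by
    have : (-1 : ℝ) + 2 = 1 := by norm_num
    rw [this, hf, cf_neg_one, cf_one]
  have hcont : Continuous (AddCircle.liftIco (2 : ℝ) (-1) f) :=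
    AddCircle.liftIco_continuous hper (cf_cont _ _ _).continuousOn
  set g : C(AddCircle (2 : ℝ), ℂ) := ⟨AddCircle.liftIco (2 : ℝ) (-1) f, hcont⟩ with hg
  have hcoef : ∀ n : ℤ, fourierCoeff g n = cc A ψ n := by
    intro n
    have h1 : fourierCoeff g n = fourierCoeff (AddCircle.liftIco (2 : ℝ) (-1) f) n := rfl
    rw [h1, fourierCoeff_liftIco_eq, fourierCoeffOn_eq_integral]
    have e0 : (-1 : ℝ) + 2 = 1 := by norm_num
    have h2 := int_cf hA ψ n
    rw [← hf] at h2
    have h3 : ∫ x in (-1 : ℝ)..(-1 + 2), fourier (-n) (x : AddCircle ((-1 : ℝ) + 2 - -1)) • f x =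
        ∫ x in (-1 : ℝ)..1, cexp (-(Real.pi * n * x * I)) * f x := by
      rw [e0]
      refine intervalIntegral.integral_congr fun x _ => ?_
      rw [fourier_coe_apply, smul_eq_mul]
      congr 2
      push_cast
      ring
    rw [h3, h2, Complex.real_smul]
    unfold cc
    push_cast
    ring
  have hsum : Summable (fourierCoeff g) := by
    rw [funext hcoef]
    exact cc_summable hA ψ
  have h1 := has_pointwise_sum_fourier_series_of_summable hsum
  have hval : ∀ y ∈ Ico (-1 : ℝ) 1, HasSum (fun n : ℤ => cc A ψ n * cexp (Real.pi * n * y * I)) (f y) := by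
    intro y hy
    have h2 := h1 (y : AddCircle (2 : ℝ))
    have h3 : g (y : AddCircle (2 : ℝ)) = f y := by
      have : y ∈ Ico (-1 : ℝ) (-1 + 2) := ⟨hy.1, by linarith [hy.2]⟩
      exact AddCircle.liftIco_coe_apply (f := f) this
    rw [h3] at h2
    have e : (fun n : ℤ => fourierCoeff g n • fourier n (y : AddCircle (2 : ℝ))) =
        fun n : ℤ => cc A ψ n * cexp (Real.pi * n * y * I) := by
      funext n
      rw [hcoef, fourier_coe_apply, smul_eq_mul]
      congr 2
      push_cast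
      ring
    rwa [e] at h2
  rcases eq_or_lt_of_le hx.2 with h | h
  · have h2 := hval (-1) ⟨le_rfl, by norm_num⟩
    rw [h]
    have e1 : f 1 = f (-1) := by rw [hf, cf_neg_one, cf_one]
    rw [e1]
    have e : (fun n : ℤ => cc A ψ n * cexp (Real.pi * n * ((-1 : ℝ) : ℂ) * I)) =
        fun n : ℤ => cc A ψ n * cexp (Real.pi * n * ((1 : ℝ) : ℂ) * I) := by
      funext n
      congr 1
      have a1 := sg_inv n
      unfold sg at a1
      have a2 : (Real.pi * n * ((-1 : ℝ) : ℂ) * I : ℂ) = -(Real.pi * n * I) := by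
        push_cast
        ring
      have a3 : (Real.pi * n * ((1 : ℝ) : ℂ) * I : ℂ) = Real.pi * n * I := by
        push_cast
        ring
      rw [a2, a3, a1]
    rwa [e] at h2
  · exact hval x ⟨hx.1, h⟩

/-- **The interpolation formula** for the multiplier. -/
theorem interp {A : ℝ} (hA : 0 < A) (ψ : ℝ) {x : ℝ} (hx : |x| ≤ 1) :
    HasSum (fun n : ℤ => cc A ψ n * cexp (x * vn (th A ψ) n * I))
      (Complex.cosh (A * x - ψ * I)) := by
  have h := (circ hA ψ (x := x) ⟨(abs_le.mp hx).1, (abs_le.mp hx).2⟩).mul_left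
    (cexp (-(th A ψ * x * I)))
  have e1 : cexp (-(th A ψ * x * I)) * cf A ψ (th A ψ) x = Complex.cosh (A * x - ψ * I) := by
    unfold cf
    rw [← mul_assoc, ← Complex.exp_add, neg_add_cancel, Complex.exp_zero, one_mul]
  rw [e1] at h
  have e2 : (fun n : ℤ => cexp (-(th A ψ * x * I)) * (cc A ψ n * cexp (Real.pi * n * x * I))) =
      fun n : ℤ => cc A ψ n * cexp (x * vn (th A ψ) n * I) := by
    funext n
    rw [mul_left_comm, ← Complex.exp_add]
    congr 2
    unfold vn
    push_cast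
    ring
  rwa [e2] at h

/-- the sum of the absolute values of the coefficients -/
theorem cc_sum {A : ℝ} (hA : 0 < A) (ψ : ℝ) :
    HasSum (fun n : ℤ => ‖cc A ψ n‖) ‖Complex.cosh (A - ψ * I)‖ := by
  have h := circ hA ψ (x := 1) ⟨by norm_num, le_rfl⟩
  rw [cf_one] at h
  set r := fun n : ℤ => A / (A ^ 2 + (vn (th A ψ) n) ^ 2) with hr
  have e1 : (fun n : ℤ => cc A ψ n * cexp (Real.pi * n * ((1 : ℝ) : ℂ) * I)) =
      fun n : ℤ => sn A ψ * ((r n : ℝ) : ℂ) := by
    funext n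
    have a3 : (Real.pi * n * ((1 : ℝ) : ℂ) * I : ℂ) = Real.pi * n * I := by
      push_cast
      ring
    rw [a3, sg_inv, cc]
    have := sg_sq n
    calc sg n * (sn A ψ * ((A / (A ^ 2 + vn (th A ψ) n ^ 2) : ℝ) : ℂ)) * sg n
        = (sg n * sg n) * (sn A ψ * ((A / (A ^ 2 + vn (th A ψ) n ^ 2) : ℝ) : ℂ)) := by ring
      _ = _ := by rw [this, one_mul]
  rw [e1] at h
  have hs := sum_inv hA (th A ψ)
  have h2 : HasSum (fun n : ℤ => sn A ψ * ((r n : ℝ) : ℂ)) (sn A ψ * ((∑' n, r n : ℝ) : ℂ)) := by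
    have h3 := hs.hasSum
    have h4 := (Complex.hasSum_ofReal.mpr h3).mul_left (sn A ψ)
    exact h4
  have h3 := h.unique h2
  have h4 := congrArg norm h3
  rw [norm_mul, Complex.norm_real, Complex.norm_real, norm_norm,
    Real.norm_of_nonneg (tsum_nonneg fun n => by rw [hr]; positivity)] at h4
  rw [h4]
  have e2 : (fun n : ℤ => ‖cc A ψ n‖) = fun n => ‖sn A ψ‖ * r n := by
    funext n
    rw [cc_norm hA]
  rw [e2]
  exact hs.hasSum.mul_left _

end

end Q97.RG
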