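import Pool.Agent.Q97.BS.Gg

set_option autoImplicit false

open MeasureTheory Filter Topology Complex Set FourierTransform

namespace Q97.RG

open Q97.MM Q97.BS

noncomputable section

/-- Decay of the frequencies outside the band, with an exponential weight. -/
theorem FDx {b : ℝ} (hb : 1 / 2 < b) {a : ℝ} (ha : 0 ≤ a) (B : ℕ) {v₀ : ℝ} (hv : 0 < v₀) :
    ∃ K : ℝ, 0 < K ∧ ∀ T V : ℝ, 3 ≤ T → v₀ ≤ V → V ≤ T → ∀ ξ : ℝ, b < |ξ| →
      Real.exp (a * |ξ|) * ‖𝓕 (gg T V) ξ‖ ≤ K / T ^ B * (1 + ξ ^ 2)⁻¹ := by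
  obtain ⟨A, hA⟩ := exists_nat_ge (max (2 * (1 + a)) (2 * (B + 2) / (b - 1 / 2)))
  have hA2 : 2 * (1 + a) ≤ A := (le_max_left _ _).trans hA
  have hAb : (B : ℝ) + 2 ≤ A / 2 * (b - 1 / 2) := by
    have h1 := (le_max_right _ _).trans hA
    rw [div_le_iff₀ (by linarith)] at h1
    linarith
  have hA1 : 1 ≤ A := by
    have : (1 : ℝ) ≤ A := by linarith
    exact_mod_cast this
  obtain ⟨K, hK, hK'⟩ := fourier_decay A hA1 hv
  refine ⟨K * Real.exp ((1 + a) / 2) * 6, by positivity, fun T V hT hv1 hV ξ hξ => ?_⟩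
  have hL1 := log_pos' hT
  have hL : 0 < Real.log T := by linarith
  have hπ := Real.pi_gt_three
  have hT0 : 0 < T := by linarith
  have hV0 : 0 < V := by linarith
  have hLT : Real.log T ≤ T := (Real.log_le_sub_one_of_pos hT0).trans (by linarith)
  set L := Real.log T with hLd
  -- the bound by the exponential
  have h1 : ‖𝓕 (ln (FF 1 T V) (1 / 2)) ((ξ - 1 / 2) * L / (2 * Real.pi))‖ ≤
      K * (T * V) * Real.exp (-(A * L * (|ξ| - 1 / 2))) := by
    obtain ⟨k1, k2⟩ := hK' T V (by linarith) hv1 hV ((ξ - 1 / 2) * L / (2 * Real.pi))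
    rcases le_total 0 ξ with h | h
    · rw [abs_of_nonneg h]
      refine k1.trans (le_of_eq ?_)
      congr 2
      field_simp
    · rw [abs_of_nonpos h]
      refine k2.trans (le_of_eq ?_)
      congr 1
      have e : T ^ A = Real.exp (A * L) := by
        rw [hLd, mul_comm, Real.exp_mul, Real.exp_log hT0, Real.rpow_natCast]
      rw [e, ← Real.exp_add]
      congr 1
      field_simp
      ring
  have h2 : Real.exp (-(A * L * (|ξ| - 1 / 2))) ≤
      (1 / T ^ (B + 2)) * (Real.exp ((1 + a) / 2) * Real.exp (-((1 + a) * |ξ|))) := by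
    have e : 1 / T ^ (B + 2) = Real.exp (-((B + 2 : ℕ) * L)) := by
      rw [Real.exp_neg, hLd, mul_comm, Real.exp_mul, Real.exp_log hT0, Real.rpow_natCast, one_div]
    rw [e, ← Real.exp_add, ← Real.exp_add]
    apply Real.exp_le_exp.2
    push_cast
    have h3 : ((B : ℝ) + 2) * L ≤ A / 2 * (|ξ| - 1 / 2) * L := by
      apply mul_le_mul_of_nonneg_right _ hL.le
      refine hAb.trans ?_
      gcongr
    have h4 : (1 + a) * (|ξ| - 1 / 2) ≤ A / 2 * L * (|ξ| - 1 / 2) := by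
      have h5 : 0 ≤ |ξ| - 1 / 2 := by linarith
      have h6 : 1 + a ≤ A / 2 * L := by nlinarith
      exact mul_le_mul_of_nonneg_right h6 h5
    nlinarith
  rw [gg_fourier hT]
  have hx0 := abs_nonneg ξ
  have h3 : Real.exp (-|ξ|) * (1 + ξ ^ 2) ≤ 6 := by
    have h5 := exp_neg_le |ξ| hx0
    rw [sq_abs] at h5
    refine le_trans ?_ h5
    have h6 : 1 + ξ ^ 2 ≤ (1 + |ξ|) * (1 + ξ ^ 2) := le_mul_of_one_le_left (by positivity) (by linarith)
    exact mul_le_mul_of_nonneg_left h6 (Real.exp_pos _).le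
  have h4 : L / (2 * Real.pi * T) * (K * (T * V)) ≤ K * T ^ 2 := by
    have e : L / (2 * Real.pi * T) * (K * (T * V)) = K * (L * V / (2 * Real.pi)) := by
      field_simp
    rw [e]
    apply mul_le_mul_of_nonneg_left _ hK.le
    rw [div_le_iff₀ (by positivity)]
    have : L * V ≤ T * T := mul_le_mul hLT hV hV0.le hT0.le
    nlinarith
  have hexp := Real.exp_pos ((1 + a) / 2)
  calc Real.exp (a * |ξ|) * (L / (2 * Real.pi * T) *
        ‖𝓕 (ln (FF 1 T V) (1 / 2)) ((ξ - 1 / 2) * L / (2 * Real.pi))‖)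
      ≤ Real.exp (a * |ξ|) * (L / (2 * Real.pi * T) * (K * (T * V) *
          ((1 / T ^ (B + 2)) * (Real.exp ((1 + a) / 2) * Real.exp (-((1 + a) * |ξ|)))))) := by
        gcongr
        exact h1.trans (by gcongr)
    _ = (L / (2 * Real.pi * T) * (K * (T * V))) * (1 / T ^ (B + 2)) * Real.exp ((1 + a) / 2) *
          (Real.exp (-|ξ|) * (1 + ξ ^ 2)) * (1 + ξ ^ 2)⁻¹ := by
        have e1 : Real.exp (-|ξ|) = Real.exp (a * |ξ|) * Real.exp (-((1 + a) * |ξ|)) := by
          rw [← Real.exp_add]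
          congr 1
          ring
        rw [e1]
        field_simp
    _ ≤ (K * T ^ 2) * (1 / T ^ (B + 2)) * Real.exp ((1 + a) / 2) * 6 * (1 + ξ ^ 2)⁻¹ := by
        gcongr
    _ = _ := by
        rw [pow_add]
        field_simp

/-- integrability of the frequencies with an exponential weight -/
theorem hat_intx {a : ℝ} (ha : 0 ≤ a) {T V : ℝ} (hT : 3 ≤ T) (hV : 0 < V) (hVT : V ≤ T) :
    Integrable (fun ξ => Real.exp (a * |ξ|) * ‖𝓕 (gg T V) ξ‖) := by
  obtain ⟨K, hK, hK'⟩ := FDx (b := 1) (by norm_num) ha 0 hV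
  set J := ∫ x, ‖gg T V x‖ with hJd
  have hJ : 0 ≤ J := integral_nonneg fun x => norm_nonneg _
  have hmaj : Integrable (fun ξ : ℝ => (K + 2 * Real.exp a * J) * (1 + ξ ^ 2)⁻¹) :=
    integrable_inv_one_add_sq.const_mul _
  refine hmaj.mono' (by
    have := hat_cont hT hV
    exact Continuous.aestronglyMeasurable (by fun_prop)) (Eventually.of_forall fun ξ => ?_)
  rw [Real.norm_of_nonneg (by positivity)]
  by_cases h : 1 < |ξ|
  · have h1 := hK' T V hT le_rfl hVT ξ h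
    rw [pow_zero, div_one] at h1
    refine h1.trans ?_
    have : 0 ≤ 2 * Real.exp a * J := by positivity
    gcongr
    linarith
  · push Not at h
    have h1 := hat_le T V ξ
    have h2 : 1 + ξ ^ 2 ≤ 2 := by
      rw [← sq_abs]
      nlinarith [abs_nonneg ξ]
    have h3 : 1 / 2 ≤ (1 + ξ ^ 2)⁻¹ := by
      rw [← one_div]
      exact one_div_le_one_div_of_le (by positivity) h2
    have h4 : Real.exp (a * |ξ|) ≤ Real.exp a := by
      apply Real.exp_le_exp.2
      nlinarith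
    calc Real.exp (a * |ξ|) * ‖𝓕 (gg T V) ξ‖ ≤ Real.exp a * J := by
          apply mul_le_mul h4 h1 (norm_nonneg _) (Real.exp_pos _).le
      _ = (2 * Real.exp a * J) * (1 / 2) := by ring
      _ ≤ (K + 2 * Real.exp a * J) * (1 + ξ ^ 2)⁻¹ := by
          apply mul_le_mul _ h3 (by norm_num) (by positivity)
          linarith

/-- the tail with the exponential weight -/
theorem hat_tailx {b : ℝ} (hb : 1 / 2 < b) {a : ℝ} (ha : 0 ≤ a) (B : ℕ) {v₀ : ℝ} (hv : 0 < v₀) :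
    ∃ K : ℝ, 0 < K ∧ ∀ T V : ℝ, 3 ≤ T → v₀ ≤ V → V ≤ T →
      ∫ ξ in {ξ : ℝ | b < |ξ|}, Real.exp (a * |ξ|) * ‖𝓕 (gg T V) ξ‖ ≤ K / T ^ B := by
  obtain ⟨K, hK, hK'⟩ := FDx hb ha B hv
  refine ⟨K * Real.pi, by have := Real.pi_pos; positivity, fun T V hT hv1 hV => ?_⟩
  have hV0 : 0 < V := by linarith
  have hT0 : 0 < T := by linarith
  have hm : MeasurableSet {ξ : ℝ | b < |ξ|} := measurableSet_lt measurable_const measurable_norm
  have hi := integrable_inv_one_add_sq.const_mul (K / T ^ B)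
  have h3 : ∫ ξ in {ξ : ℝ | b < |ξ|}, Real.exp (a * |ξ|) * ‖𝓕 (gg T V) ξ‖ ≤
      ∫ ξ in {ξ : ℝ | b < |ξ|}, K / T ^ B * (1 + ξ ^ 2)⁻¹ :=
    setIntegral_mono_on (hat_intx ha hT hV0 hV).integrableOn hi.integrableOn hm
      (fun ξ hξ => hK' T V hT hv1 hV ξ hξ)
  refine h3.trans ((setIntegral_le_integral hi (Eventually.of_forall fun ξ => by
    show 0 ≤ K / T ^ B * (1 + ξ ^ 2)⁻¹
    positivity)).trans (le_of_eq ?_))
  rw [integral_const_mul, integral_univ_inv_one_add_sq]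
  ring

/-- Fourier transforms of rescaled functions -/
theorem four_scale (G : ℝ → ℂ) {T ρ : ℝ} (hρ0 : 0 < ρ) (ξ : ℝ) :
    𝓕 (fun x : ℝ => ee (x / 2) * (G (T + ρ * x) / (T : ℂ))) ξ =
      (ee (T * ((ξ - 1 / 2) / ρ)) / (T : ℂ)) * (((ρ⁻¹ : ℝ) : ℂ) * 𝓕 G ((ξ - 1 / 2) / ρ)) := by
  set ν := (ξ - 1 / 2) / ρ with hν
  rw [fourier_ee]
  have e1 : ∀ x : ℝ, ee (-(x * ξ)) * (ee (x / 2) * (G (T + ρ * x) / (T : ℂ))) =
      (ee (T * ν) / (T : ℂ)) * (fun y => ee (-(y * ν)) * G y) (T + ρ * x) := by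
    intro x
    have e2 : ee (-(x * ξ)) * ee (x / 2) = ee (T * ν) * ee (-((T + ρ * x) * ν)) := by
      rw [← ee_add, ← ee_add]
      congr 1
      rw [hν]
      field_simp
      ring
    calc ee (-(x * ξ)) * (ee (x / 2) * (G (T + ρ * x) / (T : ℂ)))
        = (ee (-(x * ξ)) * ee (x / 2)) * (G (T + ρ * x) / (T : ℂ)) := by ring
      _ = _ := by rw [e2]; ring
  rw [integral_congr_ae (Eventually.of_forall e1), integral_const_mul]
  have e4 : ∫ x : ℝ, (fun y => ee (-(y * ν)) * G y) (T + ρ * x) =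
      ((ρ⁻¹ : ℝ) : ℂ) * ∫ y, ee (-(y * ν)) * G y := by
    have e5 := Measure.integral_comp_mul_left (fun w : ℝ => (fun y => ee (-(y * ν)) * G y) (T + w)) ρ
    rw [e5, integral_add_left_eq_self (fun y => ee (-(y * ν)) * G y) T,
      abs_of_pos (inv_pos.mpr hρ0), Complex.real_smul]
  rw [e4, fourier_ee]

/-- the scaled function on the line `Re s = 1/2 + a / log T` -/
def ga (T V a x : ℝ) : ℂ := (Real.exp (a / 2) : ℂ) * (ee (x / 2) *
  (ln (FF 1 T V) (1 / 2 + a / Real.log T) (T + 2 * Real.pi / Real.log T * x) / (T : ℂ)))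

theorem gg_eq (T V : ℝ) : gg T V = fun x : ℝ => ee (x / 2) *
    (ln (FF 1 T V) (1 / 2) (T + 2 * Real.pi / Real.log T * x) / (T : ℂ)) := by
  funext x
  unfold gg ln pt
  rfl

theorem ga_fourier {T V a : ℝ} (hT : 3 ≤ T) (hV : 0 < V) (ha : |a / Real.log T| ≤ 1 / 4) (ξ : ℝ) :
    𝓕 (ga T V a) ξ = (Real.exp (a * ξ) : ℂ) * 𝓕 (gg T V) ξ := by
  have hL : 0 < Real.log T := by linarith [log_pos' hT]
  have hπ := Real.pi_pos
  set ρ := 2 * Real.pi / Real.log T with hρ
  have hρ0 : 0 < ρ := by positivity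
  obtain ⟨M, δ, hM, hδ, hbd⟩ := FF_strip 1 T hV
  have hF := FF_differentiable 1 T V
  set ν := (ξ - 1 / 2) / ρ with hν
  have key : Real.exp (-(2 * Real.pi * ν * (1 / 2))) * 𝓕 (ln (FF 1 T V) (1 / 2)) ν =
      Real.exp (-(2 * Real.pi * ν * (1 / 2 + a / Real.log T))) *
        𝓕 (ln (FF 1 T V) (1 / 2 + a / Real.log T)) ν := by
    obtain ⟨h1, h2⟩ := abs_le.mp ha
    rcases le_total (1 / 2) (1 / 2 + a / Real.log T) with h | h
    · exact fourier_shift hF hδ hM hbd (by norm_num) (by norm_num; linarith) h ν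
    · exact (fourier_shift hF hδ hM hbd (by norm_num; linarith) (by norm_num) h ν).symm
  have e1 : ga T V a = fun x => (Real.exp (a / 2) : ℂ) • (fun x : ℝ => ee (x / 2) *
      (ln (FF 1 T V) (1 / 2 + a / Real.log T) (T + ρ * x) / (T : ℂ))) x := by
    funext x
    rfl
  have e2 : 𝓕 (ga T V a) ξ = (Real.exp (a / 2) : ℂ) * 𝓕 (fun x : ℝ => ee (x / 2) *
      (ln (FF 1 T V) (1 / 2 + a / Real.log T) (T + ρ * x) / (T : ℂ))) ξ := by
    rw [e1, fourier_ee, fourier_ee, ← integral_const_mul]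
    refine integral_congr_ae (Eventually.of_forall fun x => ?_)
    simp only [smul_eq_mul]
    ring
  rw [e2, gg_eq, four_scale _ hρ0, four_scale _ hρ0, ← hν]
  have e3 : 𝓕 (ln (FF 1 T V) (1 / 2 + a / Real.log T)) ν =
      (Real.exp (a * ξ - a / 2) : ℂ) * 𝓕 (ln (FF 1 T V) (1 / 2)) ν := by
    have e4 : (Real.exp (2 * Real.pi * ν * (1 / 2 + a / Real.log T)) : ℂ) *
        (Real.exp (-(2 * Real.pi * ν * (1 / 2 + a / Real.log T))) : ℂ) = 1 := by
      rw [← Complex.ofReal_mul, ← Real.exp_add, add_neg_cancel, Real.exp_zero, Complex.ofReal_one]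
    calc 𝓕 (ln (FF 1 T V) (1 / 2 + a / Real.log T)) ν
        = ((Real.exp (2 * Real.pi * ν * (1 / 2 + a / Real.log T)) : ℂ) *
          (Real.exp (-(2 * Real.pi * ν * (1 / 2 + a / Real.log T))) : ℂ)) *
            𝓕 (ln (FF 1 T V) (1 / 2 + a / Real.log T)) ν := by rw [e4, one_mul]
      _ = (Real.exp (2 * Real.pi * ν * (1 / 2 + a / Real.log T)) : ℂ) *
          (Real.exp (-(2 * Real.pi * ν * (1 / 2))) * 𝓕 (ln (FF 1 T V) (1 / 2)) ν) := by
          rw [key]
          ring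
      _ = _ := by
          rw [← mul_assoc, ← Complex.ofReal_mul, ← Real.exp_add]
          congr 3
          rw [hν, hρ]
          field_simp
          ring
  rw [e3]
  have e5 : (Real.exp (a * ξ) : ℂ) = (Real.exp (a / 2) : ℂ) * (Real.exp (a * ξ - a / 2) : ℂ) := by
    rw [← Complex.ofReal_mul, ← Real.exp_add]
    congr 2
    ring
  rw [e5]
  ring

theorem ga_cont (T V a : ℝ) : Continuous (ga T V a) := by
  unfold ga ln
  have h1 := (FF_differentiable 1 T V).continuous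
  have h2 := ee_continuous
  fun_prop

theorem ga_int {T V a : ℝ} (hT : 3 ≤ T) (hV : 0 < V) (ha : |a / Real.log T| ≤ 1 / 4) :
    Integrable (ga T V a) := by
  have hL := log_pos' hT
  obtain ⟨M, δ, hM, hδ, hbd⟩ := FF_strip 1 T hV
  obtain ⟨g1, g2⟩ := abs_le.mp ha
  have h1 : Integrable (ln (FF 1 T V) (1 / 2 + a / Real.log T)) :=
    ln_integrable (FF_differentiable 1 T V) hδ hbd (by norm_num; linarith) (by norm_num; linarith)
  have hρ : 2 * Real.pi / Real.log T ≠ 0 := by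
    have := Real.pi_pos
    positivity
  have h2 : Integrable (fun x => ln (FF 1 T V) (1 / 2 + a / Real.log T)
      (T + 2 * Real.pi / Real.log T * x)) := (h1.comp_add_left T).comp_mul_left' hρ
  have h3 : Integrable (fun x => ((Real.exp (a / 2) : ℂ) / (T : ℂ)) *
      ln (FF 1 T V) (1 / 2 + a / Real.log T) (T + 2 * Real.pi / Real.log T * x)) := h2.const_mul _
  refine h3.norm.mono' (ga_cont T V a).aestronglyMeasurable (Eventually.of_forall fun x => ?_)
  rw [ga, norm_mul, norm_mul, ee_norm, one_mul, norm_div, norm_mul, norm_div]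
  apply le_of_eq
  ring

theorem ga_band {T V a : ℝ} (hT : 3 ≤ T) (hV : 0 < V) (hVT : V ≤ T)
    (ha : |a / Real.log T| ≤ 1 / 4) : Band (ga T V a) 0 (∫ ξ in {ξ : ℝ | 0 < |ξ|}, ‖𝓕 (ga T V a) ξ‖) := by
  refine ⟨ga_cont T V a, ga_int hT hV ha, ?_, le_rfl⟩
  rw [funext (ga_fourier hT hV ha)]
  refine (hat_intx (abs_nonneg a) hT hV hVT).mono' ?_ (Eventually.of_forall fun ξ => ?_)
  · have := hat_cont hT hV
    exact Continuous.aestronglyMeasurable (by fun_prop)
  · rw [norm_mul, Complex.norm_real, Real.norm_of_nonneg (Real.exp_pos _).le]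
    apply mul_le_mul_of_nonneg_right _ (norm_nonneg _)
    apply Real.exp_le_exp.2
    rw [← abs_mul]
    exact le_abs_self _

end

end Q97.RG
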