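import Pool.Agent.Q97.RF.Li

set_option autoImplicit false

open Filter MeasureTheory Metric Set Topology Polynomial
open scoped ENNReal Nat ComplexConjugate

namespace Q97.RG

open Q97.RB Q97.RD Q97.MM Q97.RF

noncomputable section

/-- half of the moment comes from the neighbourhood of `T` -/
theorem core_half {β : ℝ} (hβ : 0 < β) {ϑ : ℝ} (hϑ : 0 < ϑ) : ∀ᶠ T : ℝ in atTop, ∀ U : ℝ,
    Adm T U → ENNReal.ofReal (1 / 2 * MB β T U (1 / 2)) ≤
      ∫⁻ t in {t : ℝ | |t - T| ≤ ϑ * (U * Real.log T)}, ENNReal.ofReal (zd β T U t) := by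
  obtain ⟨c, hc, hcM⟩ := HM_cmp hβ
  have hsm : Tendsto (fun T : ℝ => Real.pi / T ^ 1) atTop (𝓝 0) :=
    (tendsto_pow_atTop (n := 1) (α := ℝ) (by norm_num)).const_div_atTop _
  filter_upwards [hcM (1 / 8) (by norm_num) (by norm_num),
    hsm.eventually (gt_mem_nhds (half_pos hc)), Q97.BS.aR_tail hβ 1 hϑ, eventually_ge_atTop 3]
    with T h1 h2 h3 hT U h
  have hT0 : 0 < T := by linarith
  obtain ⟨_, g1⟩ := h1 U h
  set S := {t : ℝ | |t - T| ≤ ϑ * (U * Real.log T)} with hS
  have hSm : MeasurableSet S := by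
    apply measurableSet_le <;> fun_prop
  obtain ⟨t1, t2⟩ := Q97.BS.tR_int 1 hT0
  have htn : ∀ y, 0 ≤ Q97.BS.tR 1 T y := fun y => by unfold Q97.BS.tR; positivity
  have htail : ∫⁻ t in Sᶜ, ENNReal.ofReal (zd β T U t) ≤ ENNReal.ofReal (Real.pi / T ^ 1) := by
    calc ∫⁻ t in Sᶜ, ENNReal.ofReal (zd β T U t)
        ≤ ∫⁻ t in Sᶜ, ENNReal.ofReal (Q97.BS.tR 1 T t) := by
          refine setLIntegral_mono' hSm.compl fun t ht => ENNReal.ofReal_le_ofReal ?_
          rw [hS, mem_compl_iff, mem_ofPred_eq, not_le] at ht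
          exact h3 U h t ht
      _ ≤ ∫⁻ t, ENNReal.ofReal (Q97.BS.tR 1 T t) := setLIntegral_le_lintegral _ _
      _ = ENNReal.ofReal (∫ t, Q97.BS.tR 1 T t) :=
          (ofReal_integral_eq_lintegral_ofReal t1 (Eventually.of_forall htn)).symm
      _ ≤ _ := ENNReal.ofReal_le_ofReal t2
  have hall := zd_lint hβ h
  rw [← lintegral_add_compl _ hSm] at hall
  set M := MB β T U (1 / 2) with hM
  have h5 : ENNReal.ofReal M ≤ (∫⁻ t in S, ENNReal.ofReal (zd β T U t)) +
      ENNReal.ofReal (1 / 2 * M) := by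
    rw [← hall]
    gcongr
    refine htail.trans (ENNReal.ofReal_le_ofReal ?_)
    linarith
  have h6 : ENNReal.ofReal M = ENNReal.ofReal (1 / 2 * M) + ENNReal.ofReal (1 / 2 * M) := by
    rw [← ENNReal.ofReal_add (by linarith) (by linarith)]
    congr 1
    ring
  rw [h6] at h5
  exact (ENNReal.add_le_add_iff_right ENNReal.ofReal_ne_top).mp h5

theorem dz_upper (P : ℂ[X]) (L : ℝ) : AnalyticOnNhd ℂ (dz P L) {s : ℂ | 0 < s.im} := by
  intro s hs
  have h1 : AnalyticAt ℂ riemannZeta s := by
    have hA : AnalyticOnNhd ℂ riemannZeta {1}ᶜ := by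
      refine DifferentiableOn.analyticOnNhd (fun s hs => ?_) isOpen_compl_singleton
      exact (differentiableAt_riemannZeta hs).differentiableWithinAt
    apply hA
    rintro rfl
    simp at hs
  unfold dz Polynomial.sum
  refine Finset.analyticAt_fun_sum _ fun k _ => ?_
  simp only [div_eq_mul_inv]
  exact ((analyticAt_const).mul (id_analytic h1 k)).mul analyticAt_const

/-- the zeros in the upper half plane are countable -/
theorem zeros_ctb {P : ℂ[X]} (hP : Good P) : ∀ᶠ T : ℝ in atTop,
    {s : ℂ | 0 < s.im ∧ dz P (Real.log T) s = 0}.Countable := by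
  obtain ⟨C, hC, h⟩ := bigP' hP.1 hP.2 one_pos
  filter_upwards [h, eventually_ge_atTop 3] with T h1 hT
  have hL0 : 0 < Real.log T := Real.log_pos (by linarith)
  have hL1 : 1 < Real.log T := by
    rw [Real.lt_log_iff_exp_lt (by linarith)]
    exact lt_of_lt_of_le Real.exp_one_lt_d9 (by linarith)
  set L := Real.log T with hL
  set g := dz P L with hg
  set H := {s : ℂ | 0 < s.im} with hH
  have hA : AnalyticOnNhd ℂ g H := dz_upper P L
  have hconn : IsPreconnected H := (convex_halfSpace_im_gt 0).isPreconnected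
  have hne : ¬ EqOn g 0 H := by
    intro h0
    have hz : ball (pp T) (1 / L) ⊆ {s : ℂ | riemannZeta s = 0} := by
      intro s hs
      rw [mem_ball, dist_eq_norm] at hs
      have h2 := h1 T (by rw [sub_self, abs_zero]; positivity) 0 (fun x hx => ?_) s hs.le
      · rw [mul_zero] at h2
        exact norm_eq_zero.mp (le_antisymm h2 (norm_nonneg _))
      · have hxH : x ∈ H := by
          have h3 := (Complex.abs_im_le_norm _).trans hx
          rw [Complex.sub_im, pp_im] at h3
          have h4 : 1 / L < 1 := by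
            rw [div_lt_one hL0]
            exact hL1
          rw [hH, mem_ofPred_eq]
          linarith [(abs_le.mp h3).1]
        have h3 := h0 hxH
        rw [h3, Pi.zero_apply, norm_zero]
    have h3 : volume (ball (pp T) (1 / L)) = 0 :=
      measure_mono_null hz (zeros_countable.measure_zero volume)
    exact (measure_ball_pos volume (pp T) (by positivity : 0 < 1 / L)).ne' h3
  have hiso : ∀ s ∈ H, g s = 0 → ∀ᶠ z in 𝓝[≠] s, g z ≠ 0 := by
    intro s hs hs0
    by_contra hcon
    apply hne
    refine hA.eqOn_zero_of_preconnected_of_frequently_eq_zero hconn hs ?_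
    intro hcon2
    exact hcon hcon2
  set Z := {s : ℂ | 0 < s.im ∧ g s = 0} with hZ
  have hdisc : DiscreteTopology Z := by
    rw [discreteTopology_subtype_iff]
    intro x hx
    rw [← Filter.empty_mem_iff_bot]
    have h2 := hiso x hx.1 hx.2
    rw [mem_inf_iff]
    refine ⟨{z | g z ≠ 0}, h2, Z, mem_principal_self Z, ?_⟩
    ext z
    constructor
    · intro hz
      exact hz.elim
    · rintro ⟨h3, h4⟩
      exact h3 h4.2
  have h5 : Countable Z := TopologicalSpace.separableSpace_iff_countable.mp inferInstance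
  exact h5

theorem null_heights {P : ℂ[X]} (hP : Good P) : ∀ᶠ T : ℝ in atTop, ∀ y : ℝ,
    ∀ᵐ t : ℝ, ∀ s : ℂ, s.im = t + y → 0 < s.im → dz P (Real.log T) s ≠ 0 := by
  filter_upwards [zeros_ctb hP] with T h y
  have h1 : {t : ℝ | ¬ ∀ s : ℂ, s.im = t + y → 0 < s.im → dz P (Real.log T) s ≠ 0} ⊆
      (fun s : ℂ => s.im - y) '' {s : ℂ | 0 < s.im ∧ dz P (Real.log T) s = 0} := by
    intro t ht
    rw [mem_ofPred_eq] at ht
    push Not at ht
    obtain ⟨s, hs, hs0, hs1⟩ := ht
    exact ⟨s, ⟨hs0, hs1⟩, by simp only [hs]; ring⟩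
  exact measure_mono_null h1 ((h.image _).measure_zero volume)

/-- the clamp -/
def cl (r : ℝ) : ℝ := max (-1) (min 1 r)

theorem cl_cont : Continuous cl := by
  unfold cl
  fun_prop

theorem cl_abs (r : ℝ) : |cl r| ≤ 1 := by
  unfold cl
  rw [abs_le]
  exact ⟨le_max_left _ _, max_le (by norm_num) (min_le_left _ _)⟩

theorem cl_of {r : ℝ} (h : |r| ≤ 1) : cl r = r := by
  unfold cl
  rw [min_eq_right (abs_le.mp h).2, max_eq_right (abs_le.mp h).1]

/-- a point of the horizontal segment at height `t + y` -/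
def seg (a y r t : ℝ) : ℂ := ((1 / 2 + a * cl r : ℝ) : ℂ) + ((t + y : ℝ) : ℂ) * Complex.I

theorem seg_re (a y r t : ℝ) : (seg a y r t).re = 1 / 2 + a * cl r := by simp [seg]

theorem seg_im (a y r t : ℝ) : (seg a y r t).im = t + y := by simp [seg]

/-- the minimum over the horizontal segment -/
def mn (g : ℂ → ℂ) (a y t : ℝ) : ℝ≥0∞ := ⨅ q : ℚ, ENNReal.ofReal ‖g (seg a y q t)‖

theorem mn_meas {g : ℂ → ℂ} (hg : Measurable g) (a y : ℝ) : Measurable (mn g a y) := by
  unfold mn
  refine Measurable.iInf fun q => ?_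
  refine (hg.comp ?_).norm.ennreal_ofReal
  unfold seg
  fun_prop

theorem mn_le {g : ℂ → ℂ} {a y t : ℝ} (ha : 0 ≤ a)
    (hg : ∀ s : ℂ, s.im = t + y → ContinuousAt g s) {s : ℂ} (hs : s.im = t + y)
    (hs2 : |s.re - 1 / 2| ≤ a) : mn g a y t ≤ ENNReal.ofReal ‖g s‖ := by
  have hcont : Continuous fun r : ℝ => ENNReal.ofReal ‖g (seg a y r t)‖ := by
    rw [continuous_iff_continuousAt]
    intro r
    have h1 : ContinuousAt (fun r : ℝ => seg a y r t) r := by
      unfold seg
      exact (((Complex.continuous_ofReal.comp (continuous_const.add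
        (continuous_const.mul cl_cont)))).add continuous_const).continuousAt
    have h2 : ContinuousAt g (seg a y r t) := hg _ (seg_im _ _ _ _)
    exact (ENNReal.continuous_ofReal.continuousAt).comp
      (ContinuousAt.norm (ContinuousAt.comp (f := fun r : ℝ => seg a y r t) h2 h1))
  have hall : ∀ r : ℝ, mn g a y t ≤ ENNReal.ofReal ‖g (seg a y r t)‖ := by
    intro r
    refine Rat.denseRange_cast (𝕜 := ℝ).induction_on (p := fun r : ℝ => mn g a y t ≤
      ENNReal.ofReal ‖g (seg a y r t)‖) r (isClosed_le continuous_const hcont) fun q => ?_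
    exact iInf_le _ q
  rcases eq_or_lt_of_le ha with h | h
  · have h3 := hall 0
    have h4 : seg a y 0 t = s := by
      apply Complex.ext
      · rw [seg_re, ← h, zero_mul, add_zero]
        rw [← h] at hs2
        have := abs_nonpos_iff.mp hs2
        linarith
      · rw [seg_im, hs]
    rwa [h4] at h3
  · have h3 := hall ((s.re - 1 / 2) / a)
    have h4 : seg a y ((s.re - 1 / 2) / a) t = s := by
      apply Complex.ext
      · rw [seg_re, cl_of]
        · field_simp
          ring
        · rw [abs_div, abs_of_pos h, div_le_one h]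
          exact hs2
      · rw [seg_im, hs]
    rwa [h4] at h3

theorem dz_meas (P : ℂ[X]) (L : ℝ) : Measurable (dz P L) := by
  apply measurable_of_continuousOn_compl_singleton 1
  have hA : AnalyticOnNhd ℂ riemannZeta {1}ᶜ := by
    refine DifferentiableOn.analyticOnNhd (fun s hs => ?_) isOpen_compl_singleton
    exact (differentiableAt_riemannZeta hs).differentiableWithinAt
  unfold dz Polynomial.sum
  refine continuousOn_finsetSum _ fun k _ => ?_
  refine ContinuousOn.div_const (ContinuousOn.mul continuousOn_const ?_) _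
  intro s hs
  exact (id_analytic (hA s hs) k).continuousAt.continuousWithinAt

end

end Q97.RG
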