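import Pool.Agent.Q97.RG.Hm

set_option autoImplicit false

open Filter MeasureTheory Metric Set Topology Polynomial
open scoped ENNReal Nat ComplexConjugate

namespace Q97.RG

open Q97.RB Q97.RD Q97.MM Q97.RF

noncomputable section

theorem good_one : Good (1 : ℂ[X]) := by
  refine ⟨one_ne_zero, fun μ ν h _ => ?_⟩
  simp at h

theorem dz_one (L : ℝ) (s : ℂ) : dz 1 L s = riemannZeta s := by
  unfold dz
  rw [← Polynomial.C_1, Polynomial.sum_C_index]
  · simp
  · simp

/-- the set where the minimum is small has small mass -/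
theorem bad_mass {P : ℂ[X]} (hP : Good P) {β A : ℝ} (hβ : 0 < β) (hA : 0 ≤ A) :
    ∃ C : ℝ, 0 < C ∧ ∀ᶠ T : ℝ in atTop, ∀ U : ℝ, Adm T U → ∀ (y K : ℝ),
      |y| ≤ A / Real.log T → 0 < K →
      ∫⁻ t in {t : ℝ | |t - T| ≤ 1 / 16 * (U * Real.log T) ∧
        mn (dz P (Real.log T)) (A / Real.log T) y t <
          ENNReal.ofReal (Real.exp (-K) * ‖riemannZeta (pp t)‖)},
        ENNReal.ofReal (zd β T U t) ≤ ENNReal.ofReal (C / K * MB β T U (1 / 2)) := by
  obtain ⟨C, hC, h⟩ := log_P 1 (P₂ := P) hP hβ le_rfl hA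
  refine ⟨C, hC, ?_⟩
  filter_upwards [h, null_heights hP, Real.tendsto_log_atTop.eventually (eventually_ge_atTop
    (2 + 2 * A)), eventually_ge_atTop 3] with T h1 h2 hL hT U hAdm y K hy hK
  set L := Real.log T with hLd
  have hL0 : 0 < L := by linarith
  have hL1 : 1 ≤ L := by linarith
  have ha0 : 0 ≤ A / L := by positivity
  have hUL : U * L ≤ T := by
    have := hAdm.2.2
    rwa [le_div_iff₀ (by linarith)] at this
  set g := dz P L with hg
  set S := {t : ℝ | |t - T| ≤ 1 / 16 * (U * L)} with hS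
  set B := {t : ℝ | |t - T| ≤ 1 / 16 * (U * L) ∧
        mn g (A / L) y t < ENNReal.ofReal (Real.exp (-K) * ‖riemannZeta (pp t)‖)} with hB
  have hSm : MeasurableSet S := by
    apply measurableSet_le <;> fun_prop
  have hBm : MeasurableSet B := by
    refine hSm.inter (measurableSet_lt (mn_meas (dz_meas P L) _ _) ?_)
    exact ((zeta_line_cont (by norm_num)).norm.measurable.const_mul _).ennreal_ofReal
  -- the choice of the points
  have hex : ∀ t : ℝ, ∃ q : ℚ, t ∈ B →
      ENNReal.ofReal ‖g (seg (A / L) y q t)‖ <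
        ENNReal.ofReal (Real.exp (-K) * ‖riemannZeta (pp t)‖) := by
    intro t
    by_cases ht : t ∈ B
    · obtain ⟨q, hq⟩ := iInf_lt_iff.mp ht.2
      exact ⟨q, fun _ => hq⟩
    · exact ⟨0, fun h => absurd h ht⟩
  choose q hq using hex
  have h3 := h1 U hAdm pp (fun t => seg (A / L) y (q t) t) pp y
    (fun t => by rw [sub_self, norm_zero]; exact ha0) (fun t => by
      rw [sub_self, norm_zero]; exact ha0) hy (fun t => seg_im _ _ _ _) (fun t => by
      rw [seg_re, add_sub_cancel_left, abs_mul, abs_of_nonneg ha0]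
      exact mul_le_of_le_one_right ha0 (cl_abs _))
  have hy1 : |y| ≤ 1 := by
    refine hy.trans ?_
    rw [div_le_one hL0]
    linarith
  have hpt : ∀ᵐ t ∂(volume.restrict B), ENNReal.ofReal K * ENNReal.ofReal (zd β T U t) ≤
      ENNReal.ofReal (lq ‖dz 1 L (pp t)‖ ‖g (seg (A / L) y (q t) t)‖ ^ (1 : ℝ) *
        (‖riemannZeta (pp t)‖ ^ β * wt T U t)) := by
    rw [ae_restrict_iff' hBm]
    filter_upwards [h2 y] with t ht htB
    have h4 := hq t htB
    have h5 : 0 < t + y := by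
      have h6 := (abs_le.mp htB.1).1
      have h7 := (abs_le.mp hy1).1
      linarith
    have h6 : g (seg (A / L) y (q t) t) ≠ 0 := ht _ (seg_im _ _ _ _) (by rwa [seg_im])
    have h7 : 0 < ‖g (seg (A / L) y (q t) t)‖ := norm_pos_iff.mpr h6
    have h8 : ‖g (seg (A / L) y (q t) t)‖ < Real.exp (-K) * ‖riemannZeta (pp t)‖ :=
      (ENNReal.ofReal_lt_ofReal_iff_of_nonneg (norm_nonneg _)).mp h4
    have h9 : 0 < ‖riemannZeta (pp t)‖ := by
      rcases eq_or_lt_of_le (norm_nonneg (riemannZeta (pp t))) with h | h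
      · rw [← h, mul_zero] at h8
        linarith
      · exact h
    rw [dz_one, Real.rpow_one, ← ENNReal.ofReal_mul hK.le]
    apply ENNReal.ofReal_le_ofReal
    have h10 : K ≤ lq ‖riemannZeta (pp t)‖ ‖g (seg (A / L) y (q t) t)‖ := by
      refine le_trans ?_ (le_max_right _ _)
      rw [Real.le_log_iff_exp_le (by positivity), le_div_iff₀ h7]
      calc Real.exp K * ‖g (seg (A / L) y (q t) t)‖
          ≤ Real.exp K * (Real.exp (-K) * ‖riemannZeta (pp t)‖) := by gcongr
        _ = ‖riemannZeta (pp t)‖ := by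
            rw [← mul_assoc, ← Real.exp_add, add_neg_cancel, Real.exp_zero, one_mul]
    exact mul_le_mul_of_nonneg_right h10 (zd_nonneg β T U t)
  have hBS : B ⊆ S := fun t ht => ht.1
  have h4 : ENNReal.ofReal K * ∫⁻ t in B, ENNReal.ofReal (zd β T U t) ≤
      ENNReal.ofReal (C * MB β T U (1 / 2)) := by
    rw [← lintegral_const_mul' _ _ ENNReal.ofReal_ne_top]
    exact (lintegral_mono_ae hpt).trans ((lintegral_mono_set hBS).trans h3)
  have h5 := enn_div hK h4
  refine h5.trans (ENNReal.ofReal_le_ofReal ?_)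
  apply le_of_eq
  ring

/-- **Joint moments of minima over horizontal segments.** -/
theorem hmin {n : ℕ} (hn : 0 < n) {P : Fin n → ℂ[X]} (hP : ∀ i, Good (P i)) {β : Fin n → ℝ}
    (hβ : ∀ i, 0 < β i) {A : ℝ} (hA : 0 ≤ A) :
    ∃ c : ℝ, 0 < c ∧ ∀ᶠ T : ℝ in atTop, ∀ U : ℝ, Adm T U → ∀ (v : Fin n → ℝ → ℂ) (y : Fin n → ℝ),
      (∀ i, |y i| ≤ A / Real.log T) → (∀ i t, (v i t).im = t + y i) →
      (∀ i t, |(v i t).re - 1 / 2| ≤ A / Real.log T) →
      ENNReal.ofReal (c * MB (∑ i, β i) T U (1 / 2)) ≤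
        ∫⁻ t in {t : ℝ | |t - T| ≤ 1 / 16 * (U * Real.log T)},
          ENNReal.ofReal ((∏ i, ‖dz (P i) (Real.log T) (v i t)‖ ^ β i) * wt T U t) := by
  have : Nonempty (Fin n) := ⟨⟨0, hn⟩⟩
  set b := ∑ i, β i with hb
  have hb0 : 0 < b := Finset.sum_pos (fun i _ => hβ i) Finset.univ_nonempty
  choose C hC hbad using fun i => bad_mass (hP i) hb0 hA
  set CC := ∑ i, C i with hCC
  have hCC0 : 0 < CC := Finset.sum_pos (fun i _ => hC i) Finset.univ_nonempty
  set K := 4 * CC with hK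
  have hK0 : 0 < K := by positivity
  refine ⟨Real.exp (-K) ^ b * (1 / 4), by positivity, ?_⟩
  filter_upwards [core_half hb0 (ϑ := 1 / 16) (by norm_num), eventually_all.mpr hbad,
    Real.tendsto_log_atTop.eventually (eventually_ge_atTop (2 + 2 * A)), eventually_ge_atTop 3]
    with T h1 h2 hL hT U h v y hy hvi hvr
  set L := Real.log T with hLd
  have hL0 : 0 < L := by linarith
  have hL1 : 1 ≤ L := by linarith
  have ha0 : 0 ≤ A / L := by positivity
  have hUL : U * L ≤ T := by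
    have := h.2.2
    rwa [le_div_iff₀ (by linarith)] at this
  have hM0 := MB_nonneg b T U (1 / 2)
  set M := MB b T U (1 / 2) with hM
  set S := {t : ℝ | |t - T| ≤ 1 / 16 * (U * L)} with hS
  have hSm : MeasurableSet S := by
    apply measurableSet_le <;> fun_prop
  set B : Fin n → Set ℝ := fun i => {t : ℝ | |t - T| ≤ 1 / 16 * (U * L) ∧
        mn (dz (P i) L) (A / L) (y i) t <
          ENNReal.ofReal (Real.exp (-K) * ‖riemannZeta (pp t)‖)} with hB
  have hBm : ∀ i, MeasurableSet (B i) := by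
    intro i
    refine hSm.inter (measurableSet_lt (mn_meas (dz_meas (P i) L) _ _) ?_)
    exact ((zeta_line_cont (by norm_num)).norm.measurable.const_mul _).ennreal_ofReal
  set G := S \ ⋃ i, B i with hG
  have hGm : MeasurableSet G := hSm.diff (MeasurableSet.iUnion hBm)
  have hcover : S ⊆ G ∪ ⋃ i, B i := by
    intro t ht
    by_cases h3 : t ∈ ⋃ i, B i
    · exact Or.inr h3
    · exact Or.inl ⟨ht, h3⟩
  have hsum : ∫⁻ t in ⋃ i, B i, ENNReal.ofReal (zd b T U t) ≤ ENNReal.ofReal (1 / 4 * M) := by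
    calc ∫⁻ t in ⋃ i, B i, ENNReal.ofReal (zd b T U t)
        ≤ ∑' i, ∫⁻ t in B i, ENNReal.ofReal (zd b T U t) := lintegral_iUnion_le _ _
      _ = ∑ i, ∫⁻ t in B i, ENNReal.ofReal (zd b T U t) := tsum_fintype _
      _ ≤ ∑ i, ENNReal.ofReal (C i / K * M) :=
          Finset.sum_le_sum fun i _ => h2 i U h (y i) K (hy i) hK0
      _ = ENNReal.ofReal (∑ i, C i / K * M) := by
          rw [ENNReal.ofReal_sum_of_nonneg fun i _ => by
            have := hC i
            positivity]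
      _ = ENNReal.ofReal (1 / 4 * M) := by
          congr 1
          rw [← Finset.sum_mul, ← Finset.sum_div, ← hCC, hK]
          field_simp
  have hGmass : ENNReal.ofReal (1 / 4 * M) ≤ ∫⁻ t in G, ENNReal.ofReal (zd b T U t) := by
    have h3 : ENNReal.ofReal (1 / 2 * M) ≤ (∫⁻ t in G, ENNReal.ofReal (zd b T U t)) +
        ENNReal.ofReal (1 / 4 * M) := by
      calc ENNReal.ofReal (1 / 2 * M) ≤ ∫⁻ t in S, ENNReal.ofReal (zd b T U t) := h1 U h
        _ ≤ ∫⁻ t in G ∪ ⋃ i, B i, ENNReal.ofReal (zd b T U t) := lintegral_mono_set hcover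
        _ ≤ (∫⁻ t in G, ENNReal.ofReal (zd b T U t)) +
            ∫⁻ t in ⋃ i, B i, ENNReal.ofReal (zd b T U t) := lintegral_union_le _ _ _
        _ ≤ _ := by gcongr
    have h4 : ENNReal.ofReal (1 / 2 * M) = ENNReal.ofReal (1 / 4 * M) + ENNReal.ofReal (1 / 4 * M) := by
      rw [← ENNReal.ofReal_add (by linarith) (by linarith)]
      congr 1
      ring
    rw [h4] at h3
    exact (ENNReal.add_le_add_iff_right ENNReal.ofReal_ne_top).mp h3
  have hpt : ∀ t ∈ G, ENNReal.ofReal (Real.exp (-K) ^ b) * ENNReal.ofReal (zd b T U t) ≤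
      ENNReal.ofReal ((∏ i, ‖dz (P i) L (v i t)‖ ^ β i) * wt T U t) := by
    intro t ht
    rw [← ENNReal.ofReal_mul (by positivity)]
    apply ENNReal.ofReal_le_ofReal
    have hone : ∀ i, Real.exp (-K) * ‖riemannZeta (pp t)‖ ≤ ‖dz (P i) L (v i t)‖ := by
      intro i
      have h3 : t ∉ B i := fun h3 => ht.2 (mem_iUnion.mpr ⟨i, h3⟩)
      have h4 : ENNReal.ofReal (Real.exp (-K) * ‖riemannZeta (pp t)‖) ≤
          mn (dz (P i) L) (A / L) (y i) t := by
        by_contra hcon
        exact h3 ⟨ht.1, not_le.mp hcon⟩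
      have h5 : 0 < t + y i := by
        have h6 := (abs_le.mp (show |t - T| ≤ 1 / 16 * (U * L) from ht.1)).1
        have h7 : |y i| ≤ 1 := (hy i).trans (by rw [div_le_one hL0]; linarith)
        have h8 := (abs_le.mp h7).1
        linarith
      have h6 := mn_le (g := dz (P i) L) ha0 (t := t) (y := y i) (fun s hs => by
        refine (dz_upper (P i) L s ?_).continuousAt
        rw [mem_ofPred_eq, hs]
        exact h5) (hvi i t) (hvr i t)
      exact (ENNReal.ofReal_le_ofReal_iff (norm_nonneg _)).mp (h4.trans h6)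
    have hw := (wt_pos T U t).le
    have hz0 := norm_nonneg (riemannZeta (pp t))
    unfold zd
    rw [← mul_assoc]
    refine mul_le_mul_of_nonneg_right ?_ hw
    calc Real.exp (-K) ^ b * ‖riemannZeta (pp t)‖ ^ b
        = (Real.exp (-K) * ‖riemannZeta (pp t)‖) ^ b := by
          rw [Real.mul_rpow (Real.exp_pos _).le hz0]
      _ = ∏ i, (Real.exp (-K) * ‖riemannZeta (pp t)‖) ^ β i := by
          rw [hb, Real.rpow_sum_of_nonneg (by positivity) (fun i _ => (hβ i).le)]
      _ ≤ _ := Finset.prod_le_prod (fun i _ => by positivity) fun i _ =>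
          Real.rpow_le_rpow (by positivity) (hone i) (hβ i).le
  calc ENNReal.ofReal (Real.exp (-K) ^ b * (1 / 4) * M)
      = ENNReal.ofReal (Real.exp (-K) ^ b) * ENNReal.ofReal (1 / 4 * M) := by
        rw [← ENNReal.ofReal_mul (by positivity)]
        congr 1
        ring
    _ ≤ ENNReal.ofReal (Real.exp (-K) ^ b) * ∫⁻ t in G, ENNReal.ofReal (zd b T U t) := by gcongr
    _ = ∫⁻ t in G, ENNReal.ofReal (Real.exp (-K) ^ b) * ENNReal.ofReal (zd b T U t) :=
        (lintegral_const_mul' _ _ ENNReal.ofReal_ne_top).symm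
    _ ≤ ∫⁻ t in G, ENNReal.ofReal ((∏ i, ‖dz (P i) L (v i t)‖ ^ β i) * wt T U t) :=
        setLIntegral_mono' hGm hpt
    _ ≤ _ := lintegral_mono_set sdiff_subset

/-- **Joint moments of maxima over discs.** -/
theorem dmax {n : ℕ} (hn : 0 < n) (P : Fin n → ℂ[X]) {β : Fin n → ℝ}
    (hβ : ∀ i, 0 < β i) {A : ℝ} (hA : 0 ≤ A) :
    ∃ C : ℝ, 0 < C ∧ ∀ᶠ T : ℝ in atTop, ∀ U : ℝ, Adm T U → ∀ w : Fin n → ℝ → ℂ,
      (∀ i t, ‖w i t - pp t‖ ≤ A / Real.log T) →
      ∫⁻ x : ℝ, ENNReal.ofReal ((∏ i, ‖dz (P i) (Real.log T) (w i x)‖ ^ β i) * wt T U x) ≤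
        ENNReal.ofReal (C * MB (∑ i, β i) T U (1 / 2)) := by
  have : Nonempty (Fin n) := ⟨⟨0, hn⟩⟩
  set b := ∑ i, β i with hb
  have hb0 : 0 < b := Finset.sum_pos (fun i _ => hβ i) Finset.univ_nonempty
  obtain ⟨C, hC, h⟩ := zeta_disc hb0 (R := A + 1) (by positivity)
  set Q : ℝ := ∏ i, (nm (P i) 1 + 1) ^ β i with hQ
  have hnm : ∀ i, 0 ≤ nm (P i) 1 := fun i => nm_nonneg (P i) one_pos
  have hQ0 : 0 < Q := by
    refine Finset.prod_pos fun i _ => ?_
    have := hnm i
    positivity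
  refine ⟨Q * C, by positivity, ?_⟩
  filter_upwards [h, (log_div_tendsto (A + 1)).eventually
    (gt_mem_nhds (show (0 : ℝ) < 1 / 8 by norm_num))] with T h1 h2 U hAdm w hw
  have hL := hAdm.log
  have hL0 : 0 < Real.log T := by linarith
  rw [abs_of_nonneg (by positivity)] at h2
  set L := Real.log T with hLd
  -- the point of maximum
  have hex : ∀ x : ℝ, ∃ p : ℂ, ‖p - pp x‖ ≤ (A + 1) / L ∧
      ∀ z ∈ closedBall (pp x) ((A + 1) / L), ‖riemannZeta z‖ ≤ ‖riemannZeta p‖ := by
    intro x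
    have hcont : ContinuousOn (fun z => ‖riemannZeta z‖) (closedBall (pp x) ((A + 1) / L)) := by
      refine ((zeta_diff_ball (pp_re x) le_rfl).continuousOn.mono ?_).norm
      exact closedBall_subset_ball (by linarith)
    obtain ⟨p, hp, hmax⟩ := (isCompact_closedBall (pp x) ((A + 1) / L)).exists_isMaxOn
      ⟨_, mem_closedBall_self (by positivity)⟩ hcont
    refine ⟨p, ?_, fun z hz => hmax hz⟩
    rwa [mem_closedBall, dist_eq_norm] at hp
  choose p hp hpm using hex
  have hone : ∀ (x : ℝ) (i : Fin n), ‖dz (P i) L (w i x)‖ ^ β i ≤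
      (nm (P i) 1 + 1) ^ β i * ‖riemannZeta (p x)‖ ^ β i := by
    intro x i
    have hsub : closedBall (w i x) (1 / L) ⊆ closedBall (pp x) ((A + 1) / L) := by
      apply closedBall_subset_closedBall'
      rw [dist_eq_norm, add_div]
      linarith [hw i x]
    have h3 := dz_le (P i) (t := x) hL0 (hsub.trans (closedBall_subset_ball (by linarith)))
      (fun z hz => hpm x z (hsub hz))
    have h4 := hnm i
    have h5 := norm_nonneg (riemannZeta (p x))
    calc ‖dz (P i) L (w i x)‖ ^ β i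
        ≤ ((nm (P i) 1 + 1) * ‖riemannZeta (p x)‖) ^ β i :=
          Real.rpow_le_rpow (norm_nonneg _) (h3.trans (by nlinarith)) (hβ i).le
      _ = _ := Real.mul_rpow (by positivity) h5
  have hpt : ∀ x : ℝ, ENNReal.ofReal ((∏ i, ‖dz (P i) L (w i x)‖ ^ β i) * wt T U x) ≤
      ENNReal.ofReal Q * ENNReal.ofReal (‖riemannZeta (p x)‖ ^ b * wt T U x) := by
    intro x
    have hwt := wt_pos T U x
    rw [← ENNReal.ofReal_mul (by positivity)]
    apply ENNReal.ofReal_le_ofReal
    calc (∏ i, ‖dz (P i) L (w i x)‖ ^ β i) * wt T U x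
        ≤ (∏ i, ((nm (P i) 1 + 1) ^ β i * ‖riemannZeta (p x)‖ ^ β i)) * wt T U x := by
          gcongr with i
          exact hone x i
      _ = _ := by
          rw [Finset.prod_mul_distrib, hb,
            Real.rpow_sum_of_nonneg (norm_nonneg _) (fun i _ => (hβ i).le)]
          ring
  refine (lintegral_mono hpt).trans ?_
  rw [lintegral_const_mul' _ _ ENNReal.ofReal_ne_top]
  calc ENNReal.ofReal Q * ∫⁻ x : ℝ, ENNReal.ofReal (‖riemannZeta (p x)‖ ^ b * wt T U x)
      ≤ ENNReal.ofReal Q * ENNReal.ofReal (C * MB b T U (1 / 2)) := by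
        gcongr
        exact h1 U hAdm p hp
    _ = _ := by
        rw [← ENNReal.ofReal_mul (by positivity)]
        congr 1
        ring

end

end Q97.RG
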