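import Pool.Agent.Q97.RG.Ps
import Pool.Agent.Q97.RB.Off

set_option autoImplicit false

open MeasureTheory Filter Topology Complex Set FourierTransform
open scoped ENNReal

namespace Q97.RG

open Q97.MM Q97.BS

noncomputable section

theorem hf_eq {T V a : ℝ} (hT : 3 ≤ T) (hV : 0 < V) (hVT : V ≤ T) (ha : 0 < a)
    (haL : a / Real.log T ≤ 1 / 4) (ψ x : ℝ) :
    hf (gg T V) a ψ x = (cexp (-(ψ * I)) * ga T V a x + cexp (ψ * I) * ga T V (-a) x) / 2 := by
  have hL := log_pos' hT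
  have h1 : |a / Real.log T| ≤ 1 / 4 := by rwa [abs_of_pos (by positivity)]
  have h2 : |-a / Real.log T| ≤ 1 / 4 := by rwa [neg_div, abs_neg]
  have i1 := (ga_band hT hV hVT h1).inv x
  have i2 := (ga_band hT hV hVT h2).inv x
  simp only [ga_fourier hT hV h1] at i1
  simp only [ga_fourier hT hV h2] at i2
  have hint : ∀ c : ℝ, |c| ≤ a → Integrable (fun ξ : ℝ => ee (ξ * x) *
      ((Real.exp (c * ξ) : ℂ) * 𝓕 (gg T V) ξ)) := by
    intro c hc
    refine (hat_intx ha.le hT hV hVT).mono' ?_ (Eventually.of_forall fun ξ => ?_)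
    · have := ee_continuous
      have := hat_cont hT hV
      exact Continuous.aestronglyMeasurable (by fun_prop)
    · rw [norm_mul, ee_norm, one_mul, norm_mul, Complex.norm_real,
        Real.norm_of_nonneg (Real.exp_pos _).le]
      apply mul_le_mul_of_nonneg_right _ (norm_nonneg _)
      apply Real.exp_le_exp.2
      refine (le_abs_self _).trans ?_
      rw [abs_mul]
      exact mul_le_mul_of_nonneg_right hc (abs_nonneg _)
  have g1 := hint a (by rw [abs_of_pos ha])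
  have g2 := hint (-a) (by rw [abs_neg, abs_of_pos ha])
  rw [i1, i2, ← integral_const_mul, ← integral_const_mul,
    ← integral_add (g1.const_mul _) (g2.const_mul _), ← integral_div, hf]
  refine integral_congr_ae (Eventually.of_forall fun ξ => ?_)
  simp only
  have e1 : cexp (a * ξ - ψ * I) = cexp (-(ψ * I)) * (Real.exp (a * ξ) : ℂ) := by
    rw [Complex.ofReal_exp, ← Complex.exp_add]
    congr 1
    push_cast
    ring
  have e2 : cexp (-(a * ξ - ψ * I)) = cexp (ψ * I) * (Real.exp (-a * ξ) : ℂ) := by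
    rw [Complex.ofReal_exp, ← Complex.exp_add]
    congr 1
    push_cast
    ring
  rw [Complex.cosh, e1, e2]
  ring

/-- the mean of `|1 + r exp (i φ)| ^ β` over the circle -/
def kap (β r : ℝ) : ℝ := ∫ φ in (0 : ℝ)..(2 * Real.pi), ‖1 + r * cexp (φ * I)‖ ^ β

theorem phase_eq (P Q : ℂ) (φ : ℝ) : ‖P + cexp (φ * I) * Q‖ =
    2 * ‖(cexp (-((φ / 2 : ℝ) * I)) * P + cexp ((φ / 2 : ℝ) * I) * Q) / 2‖ := by
  have e : P + cexp (φ * I) * Q = 2 * (cexp ((φ / 2 : ℝ) * I) *
      ((cexp (-((φ / 2 : ℝ) * I)) * P + cexp ((φ / 2 : ℝ) * I) * Q) / 2)) := by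
    have h1 : cexp ((φ / 2 : ℝ) * I) * cexp (-((φ / 2 : ℝ) * I)) = 1 := by
      rw [← Complex.exp_add, add_neg_cancel, Complex.exp_zero]
    have h2 : cexp (φ * I) = cexp ((φ / 2 : ℝ) * I) * cexp ((φ / 2 : ℝ) * I) := by
      rw [← Complex.exp_add]
      congr 1
      push_cast
      ring
    rw [h2]
    linear_combination (-P) * h1
  rw [e, norm_mul, norm_mul, Complex.norm_exp_ofReal_mul_I, one_mul]
  simp

theorem cosh_phase (A φ : ℝ) : 2 * ‖Complex.cosh (A - (φ / 2 : ℝ) * I)‖ =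
    Real.exp A * ‖1 + (Real.exp (-(2 * A)) : ℂ) * cexp (φ * I)‖ := by
  have h := phase_eq (Real.exp A : ℂ) (Real.exp (-A) : ℂ) φ
  have e1 : (cexp (-((φ / 2 : ℝ) * I)) * (Real.exp A : ℂ) +
      cexp ((φ / 2 : ℝ) * I) * (Real.exp (-A) : ℂ)) / 2 = Complex.cosh (A - (φ / 2 : ℝ) * I) := by
    rw [Complex.cosh, Complex.ofReal_exp, Complex.ofReal_exp, ← Complex.exp_add, ← Complex.exp_add]
    congr 3
    · ring
    · push_cast
      ring
  rw [e1] at h
  rw [← h]
  have e2 : (Real.exp A : ℂ) + cexp (φ * I) * (Real.exp (-A) : ℂ) =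
      (Real.exp A : ℂ) * (1 + (Real.exp (-(2 * A)) : ℂ) * cexp (φ * I)) := by
    have e3 : (Real.exp (-A) : ℂ) = (Real.exp A : ℂ) * (Real.exp (-(2 * A)) : ℂ) := by
      rw [← Complex.ofReal_mul, ← Real.exp_add]
      congr 2
      ring
    rw [e3]
    ring
  rw [e2, norm_mul, Complex.norm_real, Real.norm_of_nonneg (Real.exp_pos _).le]

theorem kap_cont (β : ℝ) (hβ : 0 < β) : Continuous (kap β) := by
  unfold kap
  apply intervalIntegral.continuous_parametric_intervalIntegral_of_continuous'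
  have : Continuous fun p : ℝ × ℝ => ‖(1 : ℂ) + p.1 * cexp (p.2 * I)‖ := by fun_prop
  exact this.rpow_const fun _ => Or.inr hβ.le

theorem kap_nonneg (β r : ℝ) : 0 ≤ kap β r := by
  unfold kap
  apply intervalIntegral.integral_nonneg (by have := Real.pi_pos; positivity)
  intro φ _
  positivity

theorem kap_pos {β : ℝ} (hβ : 0 < β) : 0 < kap β 1 := by
  unfold kap
  have hπ := Real.pi_pos
  have hc : Continuous fun φ : ℝ => ‖(1 : ℂ) + (1 : ℝ) * cexp (φ * I)‖ ^ β := by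
    have : Continuous fun φ : ℝ => ‖(1 : ℂ) + (1 : ℝ) * cexp (φ * I)‖ := by fun_prop
    exact this.rpow_const fun _ => Or.inr hβ.le
  refine intervalIntegral.integral_pos (by positivity) hc.continuousOn (fun φ _ => by positivity)
    ⟨0, ⟨le_rfl, by positivity⟩, ?_⟩
  have : (1 : ℂ) + (1 : ℝ) * cexp ((0 : ℝ) * I) = 2 := by
    push_cast
    rw [zero_mul, Complex.exp_zero]
    norm_num
  rw [this]
  simp
  positivity

/-- averages over the phase depend on the absolute values only -/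
theorem phase_avg {β : ℝ} (P Q : ℂ) :
    ∫ φ in (0 : ℝ)..(2 * Real.pi), ‖P + cexp (φ * I) * Q‖ ^ β =
      ∫ φ in (0 : ℝ)..(2 * Real.pi), ‖(‖P‖ : ℂ) + cexp (φ * I) * (‖Q‖ : ℂ)‖ ^ β := by
  set F : ℝ → ℝ := fun u => ‖(‖P‖ : ℂ) + cexp (u * I) * (‖Q‖ : ℂ)‖ ^ β with hF
  have hper : Function.Periodic F (2 * Real.pi) := by
    intro u
    simp only [hF]
    congr 3
    congr 1
    push_cast
    rw [add_mul, Complex.exp_add, Complex.exp_two_pi_mul_I, mul_one]
  set s := Q.arg - P.arg with hs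
  have e1 : ∀ φ : ℝ, ‖P + cexp (φ * I) * Q‖ ^ β = F (φ + s) := by
    intro φ
    simp only [hF]
    congr 1
    have hP := Complex.norm_mul_exp_arg_mul_I P
    have hQ := Complex.norm_mul_exp_arg_mul_I Q
    have e2 : P + cexp (φ * I) * Q = cexp (P.arg * I) * ((‖P‖ : ℂ) +
        cexp ((φ + s : ℝ) * I) * (‖Q‖ : ℂ)) := by
      conv_lhs => rw [← hP, ← hQ]
      rw [mul_add, ← mul_assoc (cexp (P.arg * I)), ← Complex.exp_add]
      have e3 : (P.arg : ℂ) * I + (φ + s : ℝ) * I = φ * I + Q.arg * I := by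
        rw [hs]
        push_cast
        ring
      rw [e3, Complex.exp_add]
      ring
    rw [e2, norm_mul, Complex.norm_exp_ofReal_mul_I, one_mul]
  simp_rw [e1]
  rw [intervalIntegral.integral_comp_add_right, zero_add, add_comm (2 * Real.pi) s,
    hper.intervalIntegral_add_eq s 0, zero_add]

theorem phase_low {β ε C : ℝ} (hβ : 0 < β) (hC : 0 < C)
    (hel : ∀ a b : ℝ, 0 ≤ a → 0 ≤ b → (a + b) ^ β ≤ (1 + ε) * a ^ β + C * b ^ β)
    {d : ℝ} (hd : 0 ≤ d) {P Q : ℂ} (h : |‖Q‖ - ‖P‖| ≤ d * ‖P‖) :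
    ‖P‖ ^ β * (kap β 1 - 2 * Real.pi * C * d ^ β) ≤
      (1 + ε) * ∫ φ in (0 : ℝ)..(2 * Real.pi), ‖P + cexp (φ * I) * Q‖ ^ β := by
  have hπ := Real.pi_pos
  rw [phase_avg, ← intervalIntegral.integral_const_mul]
  have e1 : ‖P‖ ^ β * (kap β 1 - 2 * Real.pi * C * d ^ β) =
      ∫ φ in (0 : ℝ)..(2 * Real.pi), (‖P‖ ^ β * ‖1 + (1 : ℝ) * cexp (φ * I)‖ ^ β -
        C * (d * ‖P‖) ^ β) := by
    rw [intervalIntegral.integral_sub, intervalIntegral.integral_const_mul,
      intervalIntegral.integral_const, kap, Real.mul_rpow hd (norm_nonneg _)]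
    · simp only [smul_eq_mul, sub_zero]
      ring
    · refine Continuous.intervalIntegrable ?_ _ _
      have : Continuous fun φ : ℝ => ‖(1 : ℂ) + (1 : ℝ) * cexp (φ * I)‖ := by fun_prop
      exact continuous_const.mul (this.rpow_const fun _ => Or.inr hβ.le)
    · exact intervalIntegrable_const
  rw [e1]
  apply intervalIntegral.integral_mono_on (by positivity)
  · refine Continuous.intervalIntegrable ?_ _ _
    have : Continuous fun φ : ℝ => ‖(1 : ℂ) + (1 : ℝ) * cexp (φ * I)‖ := by fun_prop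
    exact (continuous_const.mul (this.rpow_const fun _ => Or.inr hβ.le)).sub continuous_const
  · refine Continuous.intervalIntegrable ?_ _ _
    have : Continuous fun φ : ℝ => ‖(‖P‖ : ℂ) + cexp (φ * I) * (‖Q‖ : ℂ)‖ := by fun_prop
    exact continuous_const.mul (this.rpow_const fun _ => Or.inr hβ.le)
  · intro φ _
    have h1 : ‖P‖ * ‖1 + (1 : ℝ) * cexp (φ * I)‖ ≤
        ‖(‖P‖ : ℂ) + cexp (φ * I) * (‖Q‖ : ℂ)‖ + d * ‖P‖ := by
      have e2 : ‖P‖ * ‖1 + (1 : ℝ) * cexp (φ * I)‖ =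
          ‖(‖P‖ : ℂ) + cexp (φ * I) * (‖P‖ : ℂ)‖ := by
        have : (‖P‖ : ℂ) + cexp (φ * I) * (‖P‖ : ℂ) = (‖P‖ : ℂ) * (1 + (1 : ℝ) * cexp (φ * I)) := by
          push_cast
          ring
        rw [this, norm_mul, Complex.norm_real, norm_norm]
      have e3 : (‖P‖ : ℂ) + cexp (φ * I) * (‖P‖ : ℂ) =
          ((‖P‖ : ℂ) + cexp (φ * I) * (‖Q‖ : ℂ)) - cexp (φ * I) * ((‖Q‖ - ‖P‖ : ℝ) : ℂ) := by
        push_cast
        ring
      rw [e2, e3]
      refine (norm_sub_le _ _).trans (add_le_add le_rfl ?_)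
      rw [norm_mul, Complex.norm_exp_ofReal_mul_I, one_mul, Complex.norm_real, Real.norm_eq_abs]
      exact h
    have h2 : (‖P‖ * ‖1 + (1 : ℝ) * cexp (φ * I)‖) ^ β ≤
        (1 + ε) * ‖(‖P‖ : ℂ) + cexp (φ * I) * (‖Q‖ : ℂ)‖ ^ β + C * (d * ‖P‖) ^ β :=
      (Real.rpow_le_rpow (by positivity) h1 hβ.le).trans
        (hel _ _ (norm_nonneg _) (by positivity))
    rw [Real.mul_rpow (norm_nonneg _) (norm_nonneg _)] at h2
    linarith

end

end Q97.RG
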