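import Pool.Agent.Q97.RG.Pc
import Pool.Agent.Q97.RD.Zf

set_option autoImplicit false

open MeasureTheory Filter Topology Complex Set FourierTransform
open scoped ENNReal

namespace Q97.RG

open Q97.MM Q97.BS Q97.RB

noncomputable section

theorem ga_norm {T : ℝ} (V a x : ℝ) (hT : 0 < T) : ‖ga T V a x‖ =
    Real.exp (a / 2) * ‖FF 1 T V (((1 / 2 + a / Real.log T : ℝ) : ℂ) +
      ((T + 2 * Real.pi / Real.log T * x : ℝ) : ℂ) * I)‖ / T := by
  unfold ga ln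
  rw [norm_mul, norm_mul, ee_norm, one_mul, norm_div, Complex.norm_real, Complex.norm_real,
    Real.norm_of_nonneg hT.le, Real.norm_of_nonneg (Real.exp_pos _).le]
  ring

/-- the two lines have nearly the same absolute values -/
theorem ratio {a : ℝ} (ha : 0 ≤ a) {d : ℝ} (hd : 0 < d) : ∀ᶠ T : ℝ in atTop, ∀ V x : ℝ, 0 < V →
    |2 * Real.pi / Real.log T * x| ≤ T / 2 →
      |‖ga T V (-a) x‖ - ‖ga T V a x‖| ≤ d * ‖ga T V a x‖ := by
  have hd4 : 0 < d / 4 := by positivity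
  filter_upwards [XX_scaled ha hd4, eventually_ge_atTop 28,
    (log_div_tendsto a).eventually (gt_mem_nhds (show (0 : ℝ) < 1 / 4 by norm_num)),
    eventually_ge_atTop (4 / d)] with T h1 hT h2 h3 V x hV hx
  have hT0 : 0 < T := by linarith
  have hL : 0 < Real.log T := Real.log_pos (by linarith)
  rw [abs_of_nonneg (by positivity)] at h2
  set δ := a / Real.log T with hδ
  have hδ0 : 0 ≤ δ := by positivity
  set y := T + 2 * Real.pi / Real.log T * x with hy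
  have hyT : |y - T| ≤ T / 2 := by
    rw [hy, add_sub_cancel_left]
    exact hx
  have hy1 : T / 2 ≤ y := by linarith [(abs_le.mp hyT).1]
  have hX := h1 y hyT
  rw [ga_norm _ _ _ hT0, ga_norm _ _ _ hT0]
  have e0 : (1 / 2 + -a / Real.log T : ℝ) = 1 / 2 - δ := by rw [hδ]; ring
  rw [e0, ← hδ, ← hy, FF_norm, FF_norm, pow_one, pow_one]
  have e1 : (1 / 2 - δ - 1 / 2) ^ 2 = δ ^ 2 := by ring
  have e2 : (1 / 2 + δ - 1 / 2) ^ 2 = δ ^ 2 := by ring
  rw [e1, e2]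
  set G := Real.exp ((δ ^ 2 - (y - T) ^ 2) / (2 * V ^ 2)) with hG
  have hG0 : 0 < G := Real.exp_pos _
  rw [Z1_of_ne (ne_one_of_re (x := 1 / 2 - δ) (by linarith) y),
    Z1_of_ne (ne_one_of_re (x := 1 / 2 + δ) (by linarith) y), norm_mul, norm_mul,
    zeta_sym δ (by linarith)]
  set N := ‖H345.XX (((1 / 2 + δ : ℝ) : ℂ) + (y : ℂ) * I)‖ with hN
  set Z := ‖riemannZeta (((1 / 2 + δ : ℝ) : ℂ) + y * I)‖ with hZ
  set m₁ := ‖(((1 / 2 - δ : ℝ) : ℂ) + y * I) - 1‖ with hm₁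
  set m₂ := ‖(((1 / 2 + δ : ℝ) : ℂ) + y * I) - 1‖ with hm₂
  have hm20 : y ≤ m₂ := by
    have := Complex.abs_im_le_norm ((((1 / 2 + δ : ℝ) : ℂ) + y * I) - 1)
    have e : ((((1 / 2 + δ : ℝ) : ℂ) + y * I) - 1).im = y := by simp
    rw [e] at this
    exact (le_abs_self y).trans this
  have hmm : |m₁ - m₂| ≤ 2 * δ := by
    have h5 := abs_norm_sub_norm_le ((((1 / 2 - δ : ℝ) : ℂ) + y * I) - 1)
      ((((1 / 2 + δ : ℝ) : ℂ) + y * I) - 1)
    have e : ((((1 / 2 - δ : ℝ) : ℂ) + y * I) - 1) - ((((1 / 2 + δ : ℝ) : ℂ) + y * I) - 1) =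
        ((-(2 * δ) : ℝ) : ℂ) := by
      push_cast
      ring
    rw [e, Complex.norm_real, Real.norm_eq_abs, abs_neg,
      abs_of_nonneg (show 0 ≤ 2 * δ by positivity)] at h5
    exact h5
  have hm2p : 0 < m₂ := by linarith
  have hm1 : m₁ ≤ 2 * m₂ := by
    have := (abs_le.mp hmm).2
    linarith
  have hm10 : 0 ≤ m₁ := norm_nonneg _
  have h4 : 2 * δ ≤ d / 2 * m₂ := by
    rw [div_le_iff₀ hd] at h3
    have : d / 2 * (T / 2) ≤ d / 2 * m₂ := by gcongr; linarith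
    nlinarith
  have hea : Real.exp (-a / 2) = Real.exp (a / 2) * Real.exp (-a) := by
    rw [← Real.exp_add]
    congr 1
    ring
  rw [hea]
  have hkey : |m₁ * (N * Real.exp (-a)) - m₂| ≤ d * m₂ := by
    have e3 : m₁ * (N * Real.exp (-a)) - m₂ = m₁ * (N * Real.exp (-a) - 1) + (m₁ - m₂) := by ring
    rw [e3]
    refine (abs_add_le _ _).trans ?_
    rw [abs_mul, abs_of_nonneg hm10]
    have h6 : m₁ * |N * Real.exp (-a) - 1| ≤ (2 * m₂) * (d / 4) :=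
      mul_le_mul hm1 hX (abs_nonneg _) (by positivity)
    linarith
  have hZ0 : 0 ≤ Z := norm_nonneg _
  have e4 : Real.exp (a / 2) * Real.exp (-a) * (m₁ * (N * Z) * G) / T -
      Real.exp (a / 2) * (m₂ * Z * G) / T =
      (Real.exp (a / 2) * Z * G / T) * (m₁ * (N * Real.exp (-a)) - m₂) := by ring
  rw [e4, abs_mul, abs_of_nonneg (by positivity)]
  calc Real.exp (a / 2) * Z * G / T * |m₁ * (N * Real.exp (-a)) - m₂|
      ≤ Real.exp (a / 2) * Z * G / T * (d * m₂) := by gcongr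
    _ = _ := by ring

/-- the inequality in the mean for a phase `φ` -/
theorem mean_phi {β a b ε C : ℝ} (hβ : 1 ≤ β) (ha : 0 < a) (hb : 0 < b) (hε : 0 < ε) (hC : 0 < C)
    (hel : ∀ a b : ℝ, 0 ≤ a → 0 ≤ b → (a + b) ^ β ≤ (1 + ε) * a ^ β + C * b ^ β)
    {T V : ℝ} (hT : 3 ≤ T) (hV : 0 < V) (hVT : V ≤ T) (haL : a / Real.log T ≤ 1 / 4)
    {η η₁ : ℝ} (hg : Band (gg T V) b η)
    (hη : ∫ ξ in {ξ : ℝ | b < |ξ|}, Real.exp (a * |ξ|) * ‖𝓕 (gg T V) ξ‖ ≤ η₁) (φ : ℝ) {e : ℝ}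
    (he : 0 < e) (E : Set ℝ) :
    ∫⁻ x in E, ‖ga T V a x + cexp (φ * I) * ga T V (-a) x‖ₑ ^ β ≤
      ENNReal.ofReal ((1 + ε) * Real.exp (β * (a * b)) *
        ‖1 + (Real.exp (-(2 * (a * b))) : ℂ) * cexp (φ * I)‖ ^ β) * (∫⁻ x, ‖gg T V x‖ₑ ^ β) +
        ENNReal.ofReal (2 ^ β * C * (2 * η₁ + e) ^ β) * volume E := by
  have hβ0 : 0 < β := by linarith
  have h1 := mean_psi hβ ha hb hε hC hel hg (hat_intx ha.le hT hV hVT) hη (φ / 2) he E
  have h2 : ∀ x, ‖ga T V a x + cexp (φ * I) * ga T V (-a) x‖ₑ ^ β =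
      ENNReal.ofReal (2 ^ β) * ‖hf (gg T V) a (φ / 2) x‖ₑ ^ β := by
    intro x
    rw [enorm_rpow (g := fun x => ga T V a x + cexp (φ * I) * ga T V (-a) x) hβ0,
      enorm_rpow (g := hf (gg T V) a (φ / 2)) hβ0, ← ENNReal.ofReal_mul (by positivity)]
    congr 1
    rw [phase_eq, Real.mul_rpow (by norm_num) (norm_nonneg _), hf_eq hT hV hVT ha haL]
  simp_rw [h2]
  rw [lintegral_const_mul' _ _ ENNReal.ofReal_ne_top]
  refine (mul_le_mul_right h1 _).trans (le_of_eq ?_)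
  rw [mul_add, ← mul_assoc, ← mul_assoc, ← ENNReal.ofReal_mul (by positivity),
    ← ENNReal.ofReal_mul (by positivity)]
  congr 3
  · have h3 := cosh_phase (a * b) φ
    have h4 : (2 * ‖Complex.cosh (((a * b : ℝ) : ℂ) - ((φ / 2 : ℝ) : ℂ) * I)‖) ^ β =
        (Real.exp (a * b) * ‖1 + (Real.exp (-(2 * (a * b))) : ℂ) * cexp (φ * I)‖) ^ β := by
      rw [h3]
    rw [Real.mul_rpow (by norm_num) (norm_nonneg _), Real.mul_rpow (Real.exp_pos _).le
      (norm_nonneg _), ← Real.exp_mul, mul_comm (a * b) β] at h4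
    calc 2 ^ β * ((1 + ε) * ‖Complex.cosh (((a * b : ℝ) : ℂ) - ((φ / 2 : ℝ) : ℂ) * I)‖ ^ β)
        = (1 + ε) * (2 ^ β * ‖Complex.cosh (((a * b : ℝ) : ℂ) - ((φ / 2 : ℝ) : ℂ) * I)‖ ^ β) := by
          ring
      _ = _ := by
          rw [h4]
          ring
  · ring

theorem ofReal_kap {β : ℝ} (hβ : 0 < β) (r : ℝ) : ENNReal.ofReal (kap β r) =
    ∫⁻ φ in Ioc 0 (2 * Real.pi), ENNReal.ofReal (‖1 + r * cexp (φ * I)‖ ^ β) := by
  have hπ := Real.pi_pos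
  unfold kap
  rw [intervalIntegral.integral_of_le (by positivity), ofReal_integral_eq_lintegral_ofReal]
  · have : Continuous fun φ : ℝ => ‖(1 : ℂ) + r * cexp (φ * I)‖ := by fun_prop
    exact ((this.rpow_const fun _ => Or.inr hβ.le).intervalIntegrable 0 (2 * Real.pi)).1
  · exact Eventually.of_forall fun φ => by positivity

/-- the average over the phase -/
theorem mean_avg {β a b ε C : ℝ} (hβ : 1 ≤ β) (ha : 0 < a) (hb : 0 < b) (hε : 0 < ε) (hC : 0 < C)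
    (hel : ∀ a b : ℝ, 0 ≤ a → 0 ≤ b → (a + b) ^ β ≤ (1 + ε) * a ^ β + C * b ^ β)
    {T V : ℝ} (hT : 3 ≤ T) (hV : 0 < V) (hVT : V ≤ T) (haL : a / Real.log T ≤ 1 / 4)
    {η η₁ : ℝ} (hg : Band (gg T V) b η)
    (hη : ∫ ξ in {ξ : ℝ | b < |ξ|}, Real.exp (a * |ξ|) * ‖𝓕 (gg T V) ξ‖ ≤ η₁) {e : ℝ}
    (he : 0 < e) (E : Set ℝ) :
    ∫⁻ x in E, ∫⁻ φ in Ioc 0 (2 * Real.pi), ‖ga T V a x + cexp (φ * I) * ga T V (-a) x‖ₑ ^ β ≤
      ENNReal.ofReal ((1 + ε) * Real.exp (β * (a * b)) * kap β (Real.exp (-(2 * (a * b))))) *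
        (∫⁻ x, ‖gg T V x‖ₑ ^ β) +
        ENNReal.ofReal (2 * Real.pi * (2 ^ β * C * (2 * η₁ + e) ^ β)) * volume E := by
  have hβ0 : 0 < β := by linarith
  have hπ := Real.pi_pos
  have hη0 : 0 ≤ η₁ := le_trans (integral_nonneg fun ξ => by positivity) hη
  have hmeas : Measurable (Function.uncurry fun (x φ : ℝ) =>
      ‖ga T V a x + cexp (φ * I) * ga T V (-a) x‖ₑ ^ β) := by
    have h1 := ga_cont T V a
    have h2 := ga_cont T V (-a)
    have : Continuous fun p : ℝ × ℝ => ga T V a p.1 + cexp (p.2 * I) * ga T V (-a) p.1 := by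
      fun_prop
    exact (this.measurable.enorm).pow_const β
  rw [lintegral_lintegral_swap hmeas.aemeasurable]
  set X := ∫⁻ x, ‖gg T V x‖ₑ ^ β with hX
  set Y := ENNReal.ofReal (2 ^ β * C * (2 * η₁ + e) ^ β) * volume E with hY
  have h1 : ∀ φ : ℝ, ∫⁻ x in E, ‖ga T V a x + cexp (φ * I) * ga T V (-a) x‖ₑ ^ β ≤
      ENNReal.ofReal ((1 + ε) * Real.exp (β * (a * b))) *
        ENNReal.ofReal (‖1 + (Real.exp (-(2 * (a * b))) : ℂ) * cexp (φ * I)‖ ^ β) * X + Y := by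
    intro φ
    have h2 := mean_phi hβ ha hb hε hC hel hT hV hVT haL hg hη φ he E
    rwa [ENNReal.ofReal_mul (by positivity)] at h2
  refine (lintegral_mono h1).trans ?_
  rw [lintegral_add_right _ measurable_const, setLIntegral_const]
  have hm2 : Measurable fun φ : ℝ =>
      ENNReal.ofReal (‖1 + (Real.exp (-(2 * (a * b))) : ℂ) * cexp (φ * I)‖ ^ β) := by
    have : Continuous fun φ : ℝ => ‖(1 : ℂ) + (Real.exp (-(2 * (a * b))) : ℂ) * cexp (φ * I)‖ := by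
      fun_prop
    exact (this.rpow_const fun _ => Or.inr hβ0.le).measurable.ennreal_ofReal
  have e1 : ∫⁻ φ in Ioc 0 (2 * Real.pi), ENNReal.ofReal ((1 + ε) * Real.exp (β * (a * b))) *
        ENNReal.ofReal (‖1 + (Real.exp (-(2 * (a * b))) : ℂ) * cexp (φ * I)‖ ^ β) * X =
      ENNReal.ofReal ((1 + ε) * Real.exp (β * (a * b)) * kap β (Real.exp (-(2 * (a * b))))) * X := by
    rw [lintegral_mul_const _ (hm2.const_mul _), lintegral_const_mul' _ _ ENNReal.ofReal_ne_top,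
      ENNReal.ofReal_mul (p := (1 + ε) * Real.exp (β * (a * b))) (by positivity), ofReal_kap hβ0]
  rw [e1]
  apply add_le_add le_rfl
  rw [hY, Real.volume_Ioc, sub_zero, ENNReal.ofReal_mul (p := 2 * Real.pi) (by positivity)]
  apply le_of_eq
  ring

end

end Q97.RG
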