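import Pool.Agent.Q97.RG.Pd
import Pool.Agent.Q97.BS.Brz
import Pool.Agent.Q97.RB.Off

set_option autoImplicit false

open MeasureTheory Filter Topology Complex Set FourierTransform
open scoped ENNReal

namespace Q97.RG

open Q97.MM Q97.BS Q97.RB

noncomputable section

/-- the part of the mean near the centre, in terms of the scaled function -/
theorem near_scale {β : ℝ} (hβ : 0 < β) (a : ℝ) {T U : ℝ} (hT : 3 ≤ T) (hU : 0 < U) {ρ : ℝ}
    (hρ : ρ = 2 * Real.pi / Real.log T) (hρ0 : 0 < ρ) :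
    ∫⁻ y in {y : ℝ | |y - T| ≤ T / 2},
        ENNReal.ofReal (‖FB β T U (((1 / 2 + a / Real.log T : ℝ) : ℂ) + y * I)‖ ^ β) ≤
      ENNReal.ofReal (ρ * (T ^ β * Real.exp (-(β * (a / 2))))) *
        ∫⁻ x in Icc (-(T / (2 * ρ))) (T / (2 * ρ)), ‖ga T (U * √(β / 2)) a x‖ₑ ^ β := by
  have hT0 : 0 < T := by linarith
  have hmS : MeasurableSet {y : ℝ | |y - T| ≤ T / 2} :=
    measurableSet_le (by fun_prop) measurable_const
  have hcF : Continuous fun y : ℝ =>
      ‖FB β T U (((1 / 2 + a / Real.log T : ℝ) : ℂ) + y * I)‖ ^ β := by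
    have h1 := (FB_diff β T U).continuous
    have h2 : Continuous fun y : ℝ => FB β T U (((1 / 2 + a / Real.log T : ℝ) : ℂ) + y * I) := by
      fun_prop
    exact h2.norm.rpow_const fun _ => Or.inr hβ.le
  rw [← lintegral_indicator hmS]
  set h : ℝ → ℝ≥0∞ := {y : ℝ | |y - T| ≤ T / 2}.indicator (fun y =>
    ENNReal.ofReal (‖FB β T U (((1 / 2 + a / Real.log T : ℝ) : ℂ) + y * I)‖ ^ β)) with hh
  have hmh : Measurable h := hcF.measurable.ennreal_ofReal.indicator hmS
  have hmh' : Measurable (fun x => h (T + x)) := hmh.comp (measurable_const_add T)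
  rw [← lintegral_add_left_eq_self h T, lint_scale hρ0 hmh']
  have hpt : ∀ x, h (T + ρ * x) ≤ ENNReal.ofReal (T ^ β * Real.exp (-(β * (a / 2)))) *
      (Icc (-(T / (2 * ρ))) (T / (2 * ρ))).indicator
        (fun x => ‖ga T (U * √(β / 2)) a x‖ₑ ^ β) x := by
    intro x
    by_cases hx : |T + ρ * x - T| ≤ T / 2
    · have hx' : x ∈ Icc (-(T / (2 * ρ))) (T / (2 * ρ)) := by
        have e : T + ρ * x - T = ρ * x := by ring
        rw [e, abs_mul, abs_of_pos hρ0] at hx
        have h2 : |x| ≤ T / (2 * ρ) := by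
          rw [le_div_iff₀ (by positivity)]; linarith
        exact abs_le.mp h2
      rw [hh, indicator_of_mem (show T + ρ * x ∈ {y : ℝ | |y - T| ≤ T / 2} from hx),
        indicator_of_mem hx', enorm_rpow hβ, ← ENNReal.ofReal_mul (by positivity)]
      apply ENNReal.ofReal_le_ofReal
      rw [ga_norm _ _ _ hT0, ← hρ]
      have e1 : ‖FB β T U (((1 / 2 + a / Real.log T : ℝ) : ℂ) + ((T + ρ * x : ℝ) : ℂ) * I)‖ =
          T * Real.exp (-(a / 2)) * (Real.exp (a / 2) *
            ‖FF 1 T (U * √(β / 2)) (((1 / 2 + a / Real.log T : ℝ) : ℂ) +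
              ((T + ρ * x : ℝ) : ℂ) * I)‖ / T) := by
        unfold FB
        rw [Real.exp_neg]
        field_simp
      rw [e1, Real.mul_rpow (by positivity) (by positivity), Real.mul_rpow hT0.le
        (Real.exp_pos _).le, ← Real.exp_mul]
      apply le_of_eq
      congr 3
      ring
    · rw [hh, indicator_of_notMem (show T + ρ * x ∉ {y : ℝ | |y - T| ≤ T / 2} from hx)]
      exact bot_le
  refine (mul_le_mul_right (lintegral_mono hpt) _).trans (le_of_eq ?_)
  rw [lintegral_const_mul' _ _ ENNReal.ofReal_ne_top, lintegral_indicator measurableSet_Icc,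
    ← mul_assoc, ← ENNReal.ofReal_mul hρ0.le]

theorem HB_half {β : ℝ} (hβ : 0 < β) {T U : ℝ} (hA : Adm T U) :
    HB β T U (1 / 2) = T ^ β * PI β T U := by
  have hT0 : 0 < T := by linarith [hA.1]
  rw [HB_eq hβ hA.pos, sub_self, zero_pow (by norm_num), zero_div, Real.exp_zero, one_mul, PB, PI,
    ← integral_const_mul]
  refine integral_congr_ae (Eventually.of_forall fun y => ?_)
  simp only [pR, Q97.BS.pt]
  rw [Real.div_rpow (norm_nonneg _) hT0.le]
  have : T ^ β ≠ 0 := (Real.rpow_pos_of_pos hT0 _).ne'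
  field_simp

/-- the part of the mean far from the centre -/
theorem far_le {β : ℝ} (hβ : 0 < β) {a : ℝ} (ha : 0 ≤ a) : ∀ᶠ T : ℝ in atTop, ∀ U : ℝ, Adm T U →
    ∫⁻ y in {y : ℝ | |y - T| ≤ T / 2}ᶜ,
        ENNReal.ofReal (‖FB β T U (((1 / 2 + a / Real.log T : ℝ) : ℂ) + y * I)‖ ^ β) ≤
      ENNReal.ofReal (Real.pi / T ^ 3) := by
  filter_upwards [tail ⌈2 * β⌉₊ 3 (Real.exp 1 * 45 ^ β) (ϑ := 1 / 2) (by norm_num),
    (log_div_tendsto a).eventually (gt_mem_nhds (show (0 : ℝ) < 1 by norm_num)),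
    eventually_ge_atTop 3] with T h1 h2 hT U hA
  have hT0 : 0 < T := by linarith
  have hL := hA.log
  have hL0 : 0 < Real.log T := by linarith
  rw [abs_of_nonneg (by positivity)] at h2
  have hU := hA.pos
  obtain ⟨t1, t2⟩ := tR_int 3 hT0
  have hUL : U * Real.log T ≤ T := by
    have := hA.2.2
    rwa [le_div_iff₀ hL0] at this
  have hδ0 : 0 ≤ a / Real.log T := by positivity
  calc ∫⁻ y in {y : ℝ | |y - T| ≤ T / 2}ᶜ,
        ENNReal.ofReal (‖FB β T U (((1 / 2 + a / Real.log T : ℝ) : ℂ) + y * I)‖ ^ β)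
      ≤ ∫⁻ y in {y : ℝ | |y - T| ≤ T / 2}ᶜ, ENNReal.ofReal (tR 3 T y) := by
        refine setLIntegral_mono' (measurableSet_le (by fun_prop) measurable_const).compl
          fun y hy => ENNReal.ofReal_le_ofReal ?_
        simp only [mem_compl_iff, mem_setOf_eq, not_le] at hy
        have h3 := h1 U hA y (by linarith)
        refine le_trans ?_ h3
        rw [FB_pow hβ hU]
        have h4 : Real.exp ((1 / 2 + a / Real.log T - 1 / 2) ^ 2 / U ^ 2) ≤ Real.exp 1 := by
          apply Real.exp_le_exp.2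
          rw [div_le_one (by positivity)]
          have e : (1 / 2 + a / Real.log T - 1 / 2 : ℝ) = a / Real.log T := by ring
          rw [e]
          exact pow_le_pow_left₀ hδ0 (by linarith [hA.2.1]) 2
        have h5 := Z1_rpow_bd hβ (x := 1 / 2 + a / Real.log T) (by linarith) (by linarith) y
        have hw := (wt_pos T U y).le
        calc Real.exp ((1 / 2 + a / Real.log T - 1 / 2) ^ 2 / U ^ 2) *
              (‖Z1 (((1 / 2 + a / Real.log T : ℝ) : ℂ) + y * I)‖ ^ β * wt T U y)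
            ≤ Real.exp 1 * ((45 ^ β * (1 + |y|) ^ ⌈2 * β⌉₊) * wt T U y) := by gcongr
          _ = _ := by ring
    _ ≤ ∫⁻ y, ENNReal.ofReal (tR 3 T y) := setLIntegral_le_lintegral _ _
    _ = ENNReal.ofReal (∫ y, tR 3 T y) :=
        (ofReal_integral_eq_lintegral_ofReal t1 (Eventually.of_forall fun y => by
          show 0 ≤ tR 3 T y
          unfold tR; positivity)).symm
    _ ≤ _ := ENNReal.ofReal_le_ofReal t2

/-- the parameter of the interpolation formula -/
theorem param {β : ℝ} (hβ : 0 < β) (a : ℝ) {K : ℝ} (hK : kap β (Real.exp (-a)) < K) :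
    ∃ t : ℝ, 0 < t ∧ (1 + t) ^ 2 * Real.exp (β * (a * t)) *
      kap β (Real.exp (-(2 * (a * (1 / 2 + t))))) < K := by
  have hc : Continuous fun t : ℝ => (1 + t) ^ 2 * Real.exp (β * (a * t)) *
      kap β (Real.exp (-(2 * (a * (1 / 2 + t))))) := by
    have h1 := kap_cont β hβ
    have h2 : Continuous fun t : ℝ => kap β (Real.exp (-(2 * (a * (1 / 2 + t))))) :=
      h1.comp (by fun_prop)
    exact Continuous.mul (by fun_prop) h2
  have h1 := hc.tendsto 0
  have e : (1 + (0 : ℝ)) ^ 2 * Real.exp (β * (a * 0)) *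
      kap β (Real.exp (-(2 * (a * (1 / 2 + 0))))) = kap β (Real.exp (-a)) := by
    rw [mul_zero, mul_zero, Real.exp_zero, add_zero, add_zero, one_pow, one_mul, one_mul]
    congr 3
    ring
  rw [e] at h1
  have h2 : ∀ᶠ t in 𝓝[>] (0 : ℝ), (1 + t) ^ 2 * Real.exp (β * (a * t)) *
      kap β (Real.exp (-(2 * (a * (1 / 2 + t))))) < K :=
    (h1.eventually (gt_mem_nhds hK)).filter_mono nhdsWithin_le_nhds
  obtain ⟨t, ht1, ht2⟩ := (h2.and (self_mem_nhdsWithin (s := Ioi (0 : ℝ)))).exists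
  exact ⟨t, ht2, ht1⟩

/-- the inequality for the scaled functions, all constants explicit -/
theorem main_near {β : ℝ} (hβ : 1 ≤ β) {a t C d K₁ : ℝ} (ha : 0 < a) (ht : 0 < t) (hC : 0 < C)
    (hel : ∀ a b : ℝ, 0 ≤ a → 0 ≤ b → (a + b) ^ β ≤ (1 + t) * a ^ β + C * b ^ β)
    (hd : 0 < d) (hdκ : 2 * Real.pi * C * d ^ β ≤ kap β 1) (hK₁ : 0 < K₁)
    {T U : ℝ} (hA : Adm T U) (hV0 : 0 < U * √(β / 2)) (hVT : U * √(β / 2) ≤ T)
    (haL : a / Real.log T ≤ 1 / 4)
    (hrat : ∀ x : ℝ, |2 * Real.pi / Real.log T * x| ≤ T / 2 →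
      |‖ga T (U * √(β / 2)) (-a) x‖ - ‖ga T (U * √(β / 2)) a x‖| ≤
        d * ‖ga T (U * √(β / 2)) a x‖) {N : ℕ} {η : ℝ}
    (hg : Band (gg T (U * √(β / 2))) (1 / 2 + t) η)
    (hη : ∫ ξ in {ξ : ℝ | 1 / 2 + t < |ξ|}, Real.exp (a * |ξ|) * ‖𝓕 (gg T (U * √(β / 2))) ξ‖ ≤
      K₁ / T ^ N) :
    ENNReal.ofReal (kap β 1 - 2 * Real.pi * C * d ^ β) *
      ∫⁻ y in {y : ℝ | |y - T| ≤ T / 2},
        ENNReal.ofReal (‖FB β T U (((1 / 2 + a / Real.log T : ℝ) : ℂ) + y * I)‖ ^ β) ≤
      ENNReal.ofReal ((1 + t) ^ 2 * Real.exp (β * (a * t)) *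
        kap β (Real.exp (-(2 * (a * (1 / 2 + t))))) * HB β T U (1 / 2) +
        (1 + t) * (2 * Real.pi * (2 ^ β * C * (2 * K₁ + 1) ^ β)) * (T ^ β * T / (T ^ N) ^ β)) := by
  have hβ0 : 0 < β := by linarith
  have hπ := Real.pi_pos
  have hT := hA.1
  have hT0 : 0 < T := by linarith
  have hL := hA.log
  have hL0 : 0 < Real.log T := by linarith
  have hU := hA.pos
  set L := Real.log T with hLd
  set ρ := 2 * Real.pi / L with hρ
  have hρ0 : 0 < ρ := by positivity
  set V := U * √(β / 2) with hV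
  set E := Icc (-(T / (2 * ρ))) (T / (2 * ρ)) with hE
  set κ := kap β 1 - 2 * Real.pi * C * d ^ β with hκ
  have hκ0 : 0 ≤ κ := by rw [hκ]; linarith
  set Φ := kap β (Real.exp (-(2 * (a * (1 / 2 + t))))) with hΦ
  have hΦ0 : 0 ≤ Φ := kap_nonneg _ _
  have hTN : 0 < T ^ N := by positivity
  have h1 := near_scale hβ0 a hT hU hρ hρ0
  have h2 := mean_avg hβ ha (b := 1 / 2 + t) (by linarith) ht hC hel hT hV0 hVT haL hg hη
    (e := 1 / T ^ N) (by positivity) E
  -- lower bound by the average over the phase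
  have h3 : ENNReal.ofReal κ * ∫⁻ x in E, ‖ga T V a x‖ₑ ^ β ≤
      ENNReal.ofReal (1 + t) * ∫⁻ x in E, ∫⁻ φ in Ioc 0 (2 * Real.pi),
        ‖ga T V a x + cexp (φ * I) * ga T V (-a) x‖ₑ ^ β := by
    rw [← lintegral_const_mul' _ _ ENNReal.ofReal_ne_top, ← lintegral_const_mul' _ _
      ENNReal.ofReal_ne_top]
    refine setLIntegral_mono' measurableSet_Icc fun x hx => ?_
    have hx2 : |ρ * x| ≤ T / 2 := by
      rw [abs_mul, abs_of_pos hρ0]
      have h4 : |x| ≤ T / (2 * ρ) := abs_le.mpr hx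
      rw [le_div_iff₀ (by positivity)] at h4
      linarith
    have h4 := phase_low hβ0 hC hel hd.le (hrat x hx2)
    have hc : Continuous fun φ : ℝ => ‖ga T V a x + cexp (φ * I) * ga T V (-a) x‖ := by fun_prop
    have h5 : ∫⁻ φ in Ioc 0 (2 * Real.pi), ‖ga T V a x + cexp (φ * I) * ga T V (-a) x‖ₑ ^ β =
        ENNReal.ofReal (∫ φ in (0 : ℝ)..(2 * Real.pi),
          ‖ga T V a x + cexp (φ * I) * ga T V (-a) x‖ ^ β) := by
      rw [intervalIntegral.integral_of_le (by positivity), ofReal_integral_eq_lintegral_ofReal]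
      · refine lintegral_congr fun φ => ?_
        rw [enorm_rpow (g := fun φ : ℝ => ga T V a x + cexp (φ * I) * ga T V (-a) x) hβ0]
      · exact ((hc.rpow_const fun _ => Or.inr hβ0.le).intervalIntegrable 0 (2 * Real.pi)).1
      · exact Eventually.of_forall fun φ => by positivity
    rw [h5, enorm_rpow hβ0, ← ENNReal.ofReal_mul hκ0, ← ENNReal.ofReal_mul (by positivity)]
    apply ENNReal.ofReal_le_ofReal
    rw [mul_comm κ]
    exact h4
  have hX := A_eq hβ0 hA
  rw [← hV, ← hLd] at hX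
  have hPI0 : 0 ≤ PI β T U := integral_nonneg fun y => pR_nonneg hT0
  have hvol : volume E = ENNReal.ofReal (T / ρ) := by
    rw [hE, Real.volume_Icc]
    congr 1
    field_simp
    ring
  rw [hX, hvol, ← ENNReal.ofReal_mul (by positivity), ← ENNReal.ofReal_mul (by positivity),
    ← ENNReal.ofReal_add (by positivity) (by positivity)] at h2
  calc ENNReal.ofReal κ * ∫⁻ y in {y : ℝ | |y - T| ≤ T / 2},
        ENNReal.ofReal (‖FB β T U (((1 / 2 + a / L : ℝ) : ℂ) + y * I)‖ ^ β)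
      ≤ ENNReal.ofReal κ * (ENNReal.ofReal (ρ * (T ^ β * Real.exp (-(β * (a / 2))))) *
          ∫⁻ x in E, ‖ga T V a x‖ₑ ^ β) := mul_le_mul_right h1 _
    _ = ENNReal.ofReal (ρ * (T ^ β * Real.exp (-(β * (a / 2))))) *
          (ENNReal.ofReal κ * ∫⁻ x in E, ‖ga T V a x‖ₑ ^ β) := by
        ring
    _ ≤ ENNReal.ofReal (ρ * (T ^ β * Real.exp (-(β * (a / 2))))) *
          (ENNReal.ofReal (1 + t) * ENNReal.ofReal ((1 + t) * Real.exp (β * (a * (1 / 2 + t))) * Φ *
            (L / (2 * Real.pi) * PI β T U) + 2 * Real.pi * (2 ^ β * C *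
              (2 * (K₁ / T ^ N) + 1 / T ^ N) ^ β) * (T / ρ))) := by
        exact mul_le_mul_right (h3.trans (mul_le_mul_right h2 _)) _
    _ = ENNReal.ofReal ((1 + t) ^ 2 * Real.exp (β * (a * t)) * Φ * HB β T U (1 / 2) +
          (1 + t) * Real.exp (-(β * (a / 2))) * (2 * Real.pi * (2 ^ β * C *
              (2 * (K₁ / T ^ N) + 1 / T ^ N) ^ β)) * (T ^ β * T)) := by
        rw [← ENNReal.ofReal_mul (by positivity), ← ENNReal.ofReal_mul (by positivity),
          HB_half hβ0 hA]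
        congr 1
        have e1 : Real.exp (β * (a * (1 / 2 + t))) =
            Real.exp (β * (a / 2)) * Real.exp (β * (a * t)) := by
          rw [← Real.exp_add]
          congr 1
          ring
        have e2 : Real.exp (-(β * (a / 2))) * Real.exp (β * (a / 2)) = 1 := by
          rw [← Real.exp_add]
          simp
        have e3 : ρ * (L / (2 * Real.pi)) = 1 := by
          rw [hρ]
          field_simp
        have e4 : ρ * (T / ρ) = T := by field_simp
        rw [e1]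
        calc ρ * (T ^ β * Real.exp (-(β * (a / 2)))) * ((1 + t) * ((1 + t) *
              (Real.exp (β * (a / 2)) * Real.exp (β * (a * t))) * Φ *
              (L / (2 * Real.pi) * PI β T U) + 2 * Real.pi * (2 ^ β * C *
              (2 * (K₁ / T ^ N) + 1 / T ^ N) ^ β) * (T / ρ)))
            = (ρ * (L / (2 * Real.pi))) * (Real.exp (-(β * (a / 2))) * Real.exp (β * (a / 2))) *
                ((1 + t) ^ 2 * Real.exp (β * (a * t)) * Φ * (T ^ β * PI β T U)) +
                (1 + t) * Real.exp (-(β * (a / 2))) * (2 * Real.pi * (2 ^ β * C *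
              (2 * (K₁ / T ^ N) + 1 / T ^ N) ^ β)) * (T ^ β * (ρ * (T / ρ))) := by ring
          _ = _ := by rw [e2, e3, e4, one_mul, one_mul]
    _ ≤ _ := by
        apply ENNReal.ofReal_le_ofReal
        apply add_le_add le_rfl
        have e5 : (2 * (K₁ / T ^ N) + 1 / T ^ N) ^ β = (2 * K₁ + 1) ^ β / (T ^ N) ^ β := by
          rw [← Real.div_rpow (by positivity) hTN.le]
          congr 1
          ring
        have e6 : Real.exp (-(β * (a / 2))) ≤ 1 := Real.exp_le_one_iff.mpr (by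
          have : 0 ≤ β * (a / 2) := by positivity
          linarith)
        rw [e5]
        have hTNβ : 0 < (T ^ N) ^ β := Real.rpow_pos_of_pos hTN _
        calc (1 + t) * Real.exp (-(β * (a / 2))) * (2 * Real.pi * (2 ^ β * C *
              ((2 * K₁ + 1) ^ β / (T ^ N) ^ β))) * (T ^ β * T)
            ≤ (1 + t) * 1 * (2 * Real.pi * (2 ^ β * C *
              ((2 * K₁ + 1) ^ β / (T ^ N) ^ β))) * (T ^ β * T) := by gcongr
          _ = _ := by ring

/-- The sharp inequality to the right of the critical line. -/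
theorem GB_sharp {β : ℝ} (hβ : 1 ≤ β) {a : ℝ} (ha : 0 < a) {ε : ℝ} (hε : 0 < ε) :
    ∀ᶠ T : ℝ in atTop, ∀ U : ℝ, Adm T U →
      GB β T U a ≤ kap β (Real.exp (-a)) / kap β 1 + ε := by
  have hβ0 : 0 < β := by linarith
  have hπ := Real.pi_pos
  set κ₁ := kap β 1 with hκ₁
  have hκ₁0 : 0 < κ₁ := kap_pos hβ0
  set K := kap β (Real.exp (-a)) / κ₁ with hK
  have hK0 : 0 ≤ K := div_nonneg (kap_nonneg _ _) hκ₁0.le
  obtain ⟨t, ht, hF⟩ := param hβ0 a (K := (K + ε / 4) * κ₁) (by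
    have : K * κ₁ = kap β (Real.exp (-a)) := by
      rw [hK]
      field_simp
    rw [add_mul, this]
    have : 0 < ε / 4 * κ₁ := by positivity
    linarith)
  set F := (1 + t) ^ 2 * Real.exp (β * (a * t)) * kap β (Real.exp (-(2 * (a * (1 / 2 + t))))) with hFd
  obtain ⟨C, hC, hel⟩ := elem hβ ht
  set s := (ε / 2) / (K + ε) with hs
  have hKε : 0 < K + ε := by linarith
  have hs0 : 0 < s := by positivity
  have hs1 : s < 1 := by
    rw [hs, div_lt_one hKε]
    linarith
  have hsK : s * (K + ε) = ε / 2 := by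
    rw [hs]
    field_simp
  set d := (s * κ₁ / (2 * Real.pi * C)) ^ (1 / β) with hd
  have hd0 : 0 < d := by positivity
  have hdβ : 2 * Real.pi * C * d ^ β = s * κ₁ := by
    rw [hd, ← Real.rpow_mul (by positivity), one_div, inv_mul_cancel₀ hβ0.ne', Real.rpow_one]
    field_simp
  obtain ⟨c, hc, hlow⟩ := H0_lower hβ0
  set N := ⌈(β + 3) / β⌉₊ with hN
  obtain ⟨K₀, hK₀, hband⟩ := gg_band (b := 1 / 2 + t) (by linarith) N (v₀ := √(β / 2))
    (Real.sqrt_pos.2 (by positivity))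
  obtain ⟨K₁, hK₁, htail⟩ := hat_tailx (b := 1 / 2 + t) (by linarith) ha.le N (v₀ := √(β / 2))
    (Real.sqrt_pos.2 (by positivity))
  set Q := (1 + t) * (2 * Real.pi * (2 ^ β * C * (2 * K₁ + 1) ^ β)) with hQ
  have hQ0 : 0 < Q := by positivity
  have hsm : Tendsto (fun T : ℝ => (Q + κ₁ * Real.pi) / T ^ 1) atTop (𝓝 0) :=
    (tendsto_pow_atTop (n := 1) (α := ℝ) (by norm_num)).const_div_atTop _
  filter_upwards [V_adm hβ0, ratio ha.le hd0, far_le hβ0 ha.le,
    (log_div_tendsto a).eventually (gt_mem_nhds (show (0 : ℝ) < 1 / 4 by norm_num)),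
    hsm.eventually (gt_mem_nhds (show 0 < ε / 4 * κ₁ * c by positivity)),
    eventually_ge_atTop 3] with T hVa hrat hfar haL hsmall hT U hA
  have hT0 : 0 < T := by linarith
  have hL := hA.log
  have hL0 : 0 < Real.log T := by linarith
  have hU := hA.pos
  rw [abs_of_nonneg (by positivity)] at haL
  have hV0 : 0 < U * √(β / 2) := mul_pos hU (Real.sqrt_pos.2 (by positivity))
  obtain ⟨hV1, hV2⟩ := hVa U hA
  have hm := main_near hβ ha ht hC hel hd0 (by rw [hdβ]; nlinarith) hK₁ hA hV0 hV2 haL.le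
    (fun x hx => hrat (U * √(β / 2)) x hV0 hx) (hband T _ hT hV1 hV2).1 (htail T _ hT hV1 hV2)
  have hf := hfar U hA
  have hmS : MeasurableSet {y : ℝ | |y - T| ≤ T / 2} :=
    measurableSet_le (by fun_prop) measurable_const
  have hG : Gd (FB β T U) (1 / 4) 3 := FB_gd hβ0 T hU
  have hδ0 : 0 ≤ a / Real.log T := by positivity
  have hsplit := LI_lint (FB_diff β T U) hβ0 hG (x := 1 / 2 + a / Real.log T) (by linarith)
    (by linarith)
  rw [← lintegral_add_compl _ hmS] at hsplit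
  set H₁ := HB β T U (1 / 2 + a / Real.log T) with hH₁
  change _ = ENNReal.ofReal H₁ at hsplit
  have hH0 := HB_pos hβ0 hA (x := 1 / 2) (by norm_num) (by norm_num)
  set H₀ := HB β T U (1 / 2) with hH₀
  have hF0 : 0 ≤ F := by
    rw [hFd]
    have := kap_nonneg β (Real.exp (-(2 * (a * (1 / 2 + t)))))
    positivity
  have hκs : kap β 1 - 2 * Real.pi * C * d ^ β = κ₁ * (1 - s) := by
    rw [hdβ]
    ring
  rw [hκs] at hm
  have h1s : 0 < 1 - s := by linarith
  have hTN : 0 < T ^ N := by positivity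
  have hTNβ : 0 < (T ^ N) ^ β := Real.rpow_pos_of_pos hTN _
  have hTβ : 0 < T ^ β := Real.rpow_pos_of_pos hT0 _
  have htot : ENNReal.ofReal (κ₁ * (1 - s)) * ENNReal.ofReal H₁ ≤
      ENNReal.ofReal (F * H₀ + Q * (T ^ β * T / (T ^ N) ^ β) +
        κ₁ * (1 - s) * (Real.pi / T ^ 3)) := by
    rw [← hsplit, mul_add, ENNReal.ofReal_add (by positivity) (by positivity)]
    refine add_le_add hm ?_
    rw [ENNReal.ofReal_mul (p := κ₁ * (1 - s)) (by positivity)]
    exact mul_le_mul_right hf _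
  rw [← ENNReal.ofReal_mul (by positivity)] at htot
  have h2 := (ENNReal.ofReal_le_ofReal_iff (by positivity)).mp htot
  -- the error terms
  have hpow : T ^ β * T / (T ^ N) ^ β ≤ 1 / T ^ 1 := by
    have h3 : T ^ (β + 3) ≤ (T ^ N) ^ β := by
      rw [← Real.rpow_natCast, ← Real.rpow_mul hT0.le]
      apply Real.rpow_le_rpow_of_exponent_le (by linarith)
      have := Nat.le_ceil ((β + 3) / β)
      rw [div_le_iff₀ hβ0] at this
      exact this
    rw [Real.rpow_add hT0] at h3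
    have h4 : (T : ℝ) ^ (3 : ℝ) = T ^ 3 := by
      rw [← Real.rpow_natCast]
      norm_num
    rw [h4] at h3
    rw [div_le_div_iff₀ hTNβ (by positivity)]
    have h5 : T ^ β * T * T ^ 1 ≤ T ^ β * T ^ 3 := by
      have : T * T ^ 1 ≤ T ^ 3 := by nlinarith [pow_pos hT0 2]
      rw [mul_assoc]
      exact mul_le_mul_of_nonneg_left this hTβ.le
    linarith
  have hpi : κ₁ * (1 - s) * (Real.pi / T ^ 3) ≤ κ₁ * Real.pi / T ^ 1 := by
    have h3 : Real.pi / T ^ 3 ≤ Real.pi / T ^ 1 := by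
      apply div_le_div_of_nonneg_left hπ.le (by positivity)
      exact pow_le_pow_right₀ (by linarith) (by norm_num)
    have h4 : κ₁ * (1 - s) ≤ κ₁ := by nlinarith
    calc κ₁ * (1 - s) * (Real.pi / T ^ 3) ≤ κ₁ * (Real.pi / T ^ 1) :=
          mul_le_mul h4 h3 (by positivity) hκ₁0.le
      _ = _ := by ring
  have hlowc : c ≤ H₀ := by
    have h3 := hlow T U hA
    have h4 : 1 ≤ T ^ β * U := by
      have h5 : 1 ≤ T ^ β := Real.one_le_rpow (by linarith) hβ0.le
      nlinarith [hA.2.1]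
    nlinarith
  have herr : Q * (T ^ β * T / (T ^ N) ^ β) + κ₁ * (1 - s) * (Real.pi / T ^ 3) ≤
      ε / 4 * κ₁ * H₀ := by
    have h3 : Q * (T ^ β * T / (T ^ N) ^ β) ≤ Q * (1 / T ^ 1) :=
      mul_le_mul_of_nonneg_left hpow hQ0.le
    have h4 : Q * (1 / T ^ 1) + κ₁ * Real.pi / T ^ 1 = (Q + κ₁ * Real.pi) / T ^ 1 := by ring
    have h5 : ε / 4 * κ₁ * c ≤ ε / 4 * κ₁ * H₀ := mul_le_mul_of_nonneg_left hlowc (by positivity)
    linarith
  have h6 : κ₁ * (1 - s) * H₁ ≤ κ₁ * (K + ε / 2) * H₀ := by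
    have h7 : F * H₀ ≤ (K + ε / 4) * κ₁ * H₀ := mul_le_mul_of_nonneg_right hF.le hH0.le
    nlinarith
  have h8 : (1 - s) * H₁ ≤ (K + ε / 2) * H₀ := by
    rw [mul_assoc, mul_assoc] at h6
    exact le_of_mul_le_mul_left h6 hκ₁0
  unfold GB
  rw [div_le_iff₀ hH0]
  have h9 : K + ε / 2 = (1 - s) * (K + ε) := by
    have : (1 - s) * (K + ε) = (K + ε) - s * (K + ε) := by ring
    rw [this, hsK]
    ring
  rw [h9, mul_assoc] at h8
  exact le_of_mul_le_mul_left h8 h1s

end

end Q97.RG
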