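import Pool.Agent.Q97.RG.Pe
import Mathlib.Data.Nat.Choose.Vandermonde

set_option autoImplicit false

open MeasureTheory Filter Topology Complex Set
open scoped ENNReal

namespace Q97.RG

open Q97.MM Q97.RB

noncomputable section

theorem kap_inv (β a : ℝ) : kap β (Real.exp a) = Real.exp (β * a) * kap β (Real.exp (-a)) := by
  unfold kap
  rw [← intervalIntegral.integral_const_mul]
  congr 1
  funext φ
  have e1 : (1 : ℂ) + (Real.exp a : ℝ) * cexp (φ * I) =
      (Real.exp a : ℝ) * (cexp (φ * I) * (starRingEnd ℂ) (1 + (Real.exp (-a) : ℝ) * cexp (φ * I))) := by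
    rw [map_add, map_mul, map_one, Complex.conj_ofReal, ← Complex.exp_conj, map_mul,
      Complex.conj_I, Complex.conj_ofReal, mul_add, mul_one, mul_add]
    have e2 : cexp (φ * I) * (((Real.exp (-a) : ℝ) : ℂ) * cexp (φ * -I)) =
        ((Real.exp (-a) : ℝ) : ℂ) := by
      rw [mul_left_comm, ← Complex.exp_add]
      have : (φ : ℂ) * I + φ * -I = 0 := by ring
      rw [this, Complex.exp_zero, mul_one]
    rw [e2, ← Complex.ofReal_mul, ← Real.exp_add, add_neg_cancel, Real.exp_zero]
    push_cast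
    ring
  rw [e1, norm_mul, norm_mul, Complex.norm_exp_ofReal_mul_I, one_mul, RCLike.norm_conj,
    Complex.norm_real, Real.norm_of_nonneg (Real.exp_pos _).le,
    Real.mul_rpow (Real.exp_pos _).le (norm_nonneg _), ← Real.exp_mul, mul_comm a β]

theorem orth (m : ℤ) : ∫ φ in (0 : ℝ)..(2 * Real.pi), cexp (m * φ * I) =
    if m = 0 then ((2 * Real.pi : ℝ) : ℂ) else 0 := by
  split_ifs with h
  · subst h
    simp
  · have hm : (m : ℂ) * I ≠ 0 := mul_ne_zero (by exact_mod_cast h) I_ne_zero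
    have e1 : ∀ φ : ℝ, cexp (m * φ * I) = cexp ((m : ℂ) * I * φ) := fun φ => by
      congr 1
      ring
    simp_rw [e1]
    rw [integral_exp_mul_complex hm]
    have e2 : cexp ((m : ℂ) * I * ((2 * Real.pi : ℝ) : ℂ)) = 1 := by
      have : (m : ℂ) * I * ((2 * Real.pi : ℝ) : ℂ) = m * (2 * Real.pi * I) := by
        push_cast
        ring
      rw [this, Complex.exp_int_mul_two_pi_mul_I]
    rw [e2]
    simp

/-- the constant for even orders -/
theorem kap_even (k : ℕ) (r : ℝ) : kap (2 * k) r =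
    2 * Real.pi * ∑ j ∈ Finset.range (k + 1), (k.choose j : ℝ) ^ 2 * r ^ (2 * j) := by
  have h1 : ∀ φ : ℝ, ((‖1 + r * cexp (φ * I)‖ ^ (2 * k : ℝ) : ℝ) : ℂ) =
      ∑ j ∈ Finset.range (k + 1), ∑ l ∈ Finset.range (k + 1),
        ((k.choose j : ℝ) * (k.choose l : ℝ) * (r ^ j * r ^ l) : ℝ) *
          cexp (((j : ℤ) - (l : ℤ) : ℤ) * φ * I) := by
    intro φ
    have e1 : ‖1 + (r : ℂ) * cexp (φ * I)‖ ^ (2 * k : ℝ) = ‖(1 + (r : ℂ) * cexp (φ * I)) ^ k‖ ^ 2 := by
      have : (2 * (k : ℝ)) = ((2 * k : ℕ) : ℝ) := by push_cast; ring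
      rw [this, Real.rpow_natCast, norm_pow, ← pow_mul, Nat.mul_comm k 2]
    rw [e1, ← Complex.normSq_eq_norm_sq, ← Complex.mul_conj, map_pow, add_comm (1 : ℂ), map_add,
      map_mul, map_one, Complex.conj_ofReal, ← Complex.exp_conj, map_mul, Complex.conj_I,
      Complex.conj_ofReal, add_pow, add_pow, Finset.sum_mul_sum]
    refine Finset.sum_congr rfl fun j _ => Finset.sum_congr rfl fun l _ => ?_
    rw [one_pow, one_pow, mul_one, mul_one, mul_pow, mul_pow, ← Complex.exp_nat_mul,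
      ← Complex.exp_nat_mul]
    have e2 : cexp (((j : ℤ) - (l : ℤ) : ℤ) * φ * I) =
        cexp (j * (φ * I)) * cexp (l * (φ * -I)) := by
      rw [← Complex.exp_add]
      congr 1
      push_cast
      ring
    rw [e2]
    push_cast
    ring
  have h2 : ((kap (2 * k) r : ℝ) : ℂ) = ∑ j ∈ Finset.range (k + 1), ∑ l ∈ Finset.range (k + 1),
        ((k.choose j : ℝ) * (k.choose l : ℝ) * (r ^ j * r ^ l) : ℝ) *
          (if ((j : ℤ) - (l : ℤ) : ℤ) = 0 then ((2 * Real.pi : ℝ) : ℂ) else 0) := by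
    unfold kap
    rw [← intervalIntegral.integral_ofReal]
    simp_rw [h1]
    rw [intervalIntegral.integral_finsetSum]
    · refine Finset.sum_congr rfl fun j _ => ?_
      rw [intervalIntegral.integral_finsetSum]
      · refine Finset.sum_congr rfl fun l _ => ?_
        rw [intervalIntegral.integral_const_mul, orth]
      · intro l _
        apply Continuous.intervalIntegrable
        fun_prop
    · intro j _
      apply Continuous.intervalIntegrable
      fun_prop
  have h3 : ((kap (2 * k) r : ℝ) : ℂ) = ((2 * Real.pi * ∑ j ∈ Finset.range (k + 1),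
      (k.choose j : ℝ) ^ 2 * r ^ (2 * j) : ℝ) : ℂ) := by
    rw [h2, Finset.mul_sum, Complex.ofReal_sum]
    refine Finset.sum_congr rfl fun j hj => ?_
    rw [Finset.sum_eq_single j]
    · rw [sub_self, if_pos rfl]
      push_cast
      ring
    · intro l _ hl
      rw [if_neg, mul_zero]
      intro h
      apply hl
      omega
    · intro h
      exact absurd hj h
  exact_mod_cast h3

/-- the constant -/
def kon (β a : ℝ) : ℝ := kap β (Real.exp (-a)) / kap β 1

theorem kon_nonneg (β a : ℝ) : 0 ≤ kon β a := div_nonneg (kap_nonneg _ _) (kap_nonneg _ _)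

theorem kon_neg (β a : ℝ) : kon β (-a) = Real.exp (β * a) * kon β a := by
  unfold kon
  rw [neg_neg, kap_inv]
  ring

theorem kon_even (k : ℕ) (a : ℝ) : kon (2 * k) a =
    (∑ j ∈ Finset.range (k + 1), (k.choose j : ℝ) ^ 2 * Real.exp (-(2 * j * a))) /
      ((2 * k).choose k : ℝ) := by
  have hπ := Real.pi_pos
  unfold kon
  rw [kap_even, kap_even]
  have e1 : ∑ j ∈ Finset.range (k + 1), (k.choose j : ℝ) ^ 2 * (1 : ℝ) ^ (2 * j) =
      ((2 * k).choose k : ℝ) := by
    simp only [one_pow, mul_one]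
    exact_mod_cast Nat.sum_range_choose_sq k
  have e2 : ∀ j : ℕ, Real.exp (-a) ^ (2 * j) = Real.exp (-(2 * j * a)) := fun j => by
    rw [← Real.exp_nat_mul]
    congr 1
    push_cast
    ring
  rw [e1]
  simp_rw [e2]
  rw [mul_div_mul_left _ _ (by positivity)]

/-- passing to the moments: upper bounds -/
theorem pass_up {β : ℝ} (hβ : 0 < β) {a K : ℝ} (hK : 0 ≤ K)
    (h : ∀ e : ℝ, 0 < e → ∀ᶠ T : ℝ in atTop, ∀ U : ℝ, Adm T U → GB β T U a ≤ K + e)
    {ε : ℝ} (hε : 0 < ε) : ∀ᶠ T : ℝ in atTop, ∀ U : ℝ, Adm T U →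
      MB β T U (1 / 2 + a / Real.log T) ≤ (K + ε) * MB β T U (1 / 2) := by
  set e := min (1 / 4) (ε / (4 * (K + 1 + ε))) with he
  have he0 : 0 < e := lt_min (by norm_num) (by positivity)
  have he1 : e ≤ 1 / 4 := min_le_left _ _
  have he2 : 4 * (K + 1 + ε) * e ≤ ε := by
    have : e ≤ ε / (4 * (K + 1 + ε)) := min_le_right _ _
    rwa [le_div_iff₀' (by positivity)] at this
  filter_upwards [h e he0, F1 hβ a he0, F1 hβ 0 he0, eventually_ge_atTop 3] with T h0 h1 h2 hT U hA
  have hT0 : 0 < T := by linarith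
  have hH := HB_pos hβ hA (x := 1 / 2) (by norm_num) (by norm_num)
  have g0 := h0 U hA
  have g1 := (abs_le.mp (h1 U hA)).1
  have g2 := (abs_le.mp (h2 U hA)).2
  rw [GB_zero hβ hA] at g2
  have hG0 := GB_nonneg β T U a
  have hTβ : 0 < T ^ β := Real.rpow_pos_of_pos hT0 _
  have hJ : JB β T U a ≤ (K + ε) * JB β T U 0 := by
    have q1 : JB β T U a ≤ (1 + e) * (K + e) + e := by nlinarith
    have q2 : 1 - 2 * e ≤ JB β T U 0 := by linarith
    have q3 : (K + ε) * (1 - 2 * e) ≤ (K + ε) * JB β T U 0 :=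
      mul_le_mul_of_nonneg_left q2 (by positivity)
    nlinarith
  unfold JB at hJ
  rw [zero_div, add_zero, ← mul_div_assoc, div_le_div_iff_of_pos_right hH, mul_left_comm] at hJ
  exact le_of_mul_le_mul_left hJ hTβ

/-- passing to the moments: lower bounds -/
theorem pass_low {β : ℝ} (hβ : 0 < β) {a K : ℝ} (hK : 0 ≤ K)
    (h : ∀ e : ℝ, 0 < e → ∀ᶠ T : ℝ in atTop, ∀ U : ℝ, Adm T U → K - e ≤ GB β T U a)
    {ε : ℝ} (hε : 0 < ε) : ∀ᶠ T : ℝ in atTop, ∀ U : ℝ, Adm T U →
      (K - ε) * MB β T U (1 / 2) ≤ MB β T U (1 / 2 + a / Real.log T) := by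
  set e := min (1 / 4) (ε / (4 * (K + 1))) with he
  have he0 : 0 < e := lt_min (by norm_num) (by positivity)
  have he1 : e ≤ 1 / 4 := min_le_left _ _
  have he2 : 4 * (K + 1) * e ≤ ε := by
    have : e ≤ ε / (4 * (K + 1)) := min_le_right _ _
    rwa [le_div_iff₀' (by positivity)] at this
  filter_upwards [h e he0, F1 hβ a he0, F1 hβ 0 he0, eventually_ge_atTop 3] with T h0 h1 h2 hT U hA
  have hT0 : 0 < T := by linarith
  have hH := HB_pos hβ hA (x := 1 / 2) (by norm_num) (by norm_num)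
  have g0 := h0 U hA
  have g1 := (abs_le.mp (h1 U hA)).2
  have g2 := (abs_le.mp (h2 U hA)).1
  rw [GB_zero hβ hA] at g2
  have hG0 := GB_nonneg β T U a
  have hTβ : 0 < T ^ β := Real.rpow_pos_of_pos hT0 _
  have hJ : (K - ε) * JB β T U 0 ≤ JB β T U a := by
    have hJ0 := JB_nonneg β hT0 U 0
    have hJa := JB_nonneg β hT0 U a
    rcases le_total K ε with hKε | hKε
    · nlinarith
    · have q1 : (1 - e) * (K - e) - e ≤ JB β T U a := by nlinarith
      have q2 : JB β T U 0 ≤ 1 + 2 * e := by linarith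
      have q3 : (K - ε) * JB β T U 0 ≤ (K - ε) * (1 + 2 * e) :=
        mul_le_mul_of_nonneg_left q2 (by linarith)
      nlinarith
  unfold JB at hJ
  rw [zero_div, add_zero, ← mul_div_assoc, div_le_div_iff_of_pos_right hH, mul_left_comm] at hJ
  exact le_of_mul_le_mul_left hJ hTβ

/-- The inequality to the left of the line. -/
theorem GB_sharp_neg {β : ℝ} (hβ : 1 ≤ β) {a : ℝ} (ha : 0 < a) {ε : ℝ} (hε : 0 < ε) :
    ∀ᶠ T : ℝ in atTop, ∀ U : ℝ, Adm T U → GB β T U (-a) ≤ kon β (-a) + ε := by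
  have hβ0 : 0 < β := by linarith
  set E := Real.exp (β * a) with hE
  have hE0 : 0 < E := Real.exp_pos _
  filter_upwards [GB_sharp hβ ha (show 0 < ε / (2 * E) by positivity),
    GB_neg_le hβ0 ha.le (half_pos hε)] with T h1 h2 U hA
  have g1 := h1 U hA
  have g2 := h2 U hA
  rw [kon_neg]
  have g3 : E * GB β T U a ≤ E * (kon β a + ε / (2 * E)) := mul_le_mul_of_nonneg_left g1 hE0.le
  have g4 : E * (kon β a + ε / (2 * E)) = E * kon β a + ε / 2 := by
    field_simp
  linarith

theorem kon_zero {β : ℝ} (hβ : 0 < β) : kon β 0 = 1 := by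
  unfold kon
  rw [neg_zero, Real.exp_zero, div_self (kap_pos hβ).ne']

/-- The upper bound. -/
theorem upper {β : ℝ} (hβ : 1 ≤ β) (a : ℝ) {ε : ℝ} (hε : 0 < ε) :
    ∀ᶠ T : ℝ in atTop, ∀ U : ℝ, Adm T U →
      MB β T U (1 / 2 + a / Real.log T) ≤ (kon β a + ε) * MB β T U (1 / 2) := by
  have hβ0 : 0 < β := by linarith
  refine pass_up hβ0 (kon_nonneg _ _) (fun e he => ?_) hε
  rcases lt_trichotomy a 0 with ha | ha | ha
  · have := GB_sharp_neg hβ (a := -a) (by linarith) he
    rwa [neg_neg] at this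
  · subst ha
    refine Eventually.of_forall fun T U hA => ?_
    rw [GB_zero hβ0 hA, kon_zero hβ0]
    linarith
  · exact GB_sharp hβ ha he

/-- The lower bound to the right of the line. -/
theorem GB_low {β : ℝ} (hβ : 0 < β) {a : ℝ} (ha : 0 < a) {ε : ℝ} (hε : 0 < ε) :
    ∀ᶠ T : ℝ in atTop, ∀ U : ℝ, Adm T U → Real.exp (-(β * a) / 2) - ε ≤ GB β T U a := by
  set q := Real.exp (-(β * a) / 2) with hq
  have hq0 : 0 < q := Real.exp_pos _
  have hq1 : q ≤ 1 := Real.exp_le_one_iff.mpr (by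
    have : 0 < β * a := by positivity
    linarith)
  have hqq : q * q = Real.exp (-(β * a)) := by
    rw [hq, ← Real.exp_add]
    congr 1
    ring
  have hE : Real.exp (β * a) * (q * q) = 1 := by
    rw [hqq, ← Real.exp_add]
    simp
  set e := min (1 / 4) (ε / 2) with he
  have he0 : 0 < e := lt_min (by norm_num) (by positivity)
  have he1 : e ≤ 1 / 4 := min_le_left _ _
  have he2 : e ≤ ε / 2 := min_le_right _ _
  filter_upwards [GB_le hβ ha.le one_pos, GB_neg_le hβ ha.le he0,
    (log_div_tendsto a).eventually (gt_mem_nhds (show (0 : ℝ) < 1 / 4 by norm_num))]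
    with T h1 h2 h3 U hA
  have hL := hA.log
  have hL0 : 0 < Real.log T := by linarith
  rw [abs_of_pos (by positivity)] at h3
  have g1 := h1 U hA
  have g2 := h2 U hA
  have hG0 := GB_nonneg β T U a
  have hH := HB_pos hβ hA (x := 1 / 2) (by norm_num) (by norm_num)
  have hδ : 0 < a / Real.log T := by positivity
  have p1 := HB_pos hβ hA (x := 1 / 2 - a / Real.log T) (by linarith) (by linarith)
  have p2 := HB_pos hβ hA (x := 1 / 2 + a / Real.log T) (by linarith) (by linarith)
  have hlc := LI_logconv (FB_diff β T U) hβ (FB_gd hβ T hA.pos) (x₁ := 1 / 2 - a / Real.log T)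
    (x₂ := 1 / 2 + a / Real.log T) (θ := 1 / 2) (by linarith) (by linarith) (by linarith)
    (by norm_num) (by norm_num) p1 p2
  have e1 : (1 - 1 / 2 : ℝ) * (1 / 2 - a / Real.log T) + 1 / 2 * (1 / 2 + a / Real.log T) = 1 / 2 := by
    ring
  have e2 : (1 - 1 / 2 : ℝ) = 1 / 2 := by norm_num
  rw [e1, e2, ← Real.mul_rpow (LI_nonneg _ _ _) (LI_nonneg _ _ _), ← Real.sqrt_eq_rpow] at hlc
  change HB β T U (1 / 2) ≤ √(HB β T U (1 / 2 - a / Real.log T) *
    HB β T U (1 / 2 + a / Real.log T)) at hlc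
  have hsq := pow_le_pow_left₀ hH.le hlc 2
  rw [Real.sq_sqrt (by positivity)] at hsq
  have hprod : 1 ≤ GB β T U (-a) * GB β T U a := by
    unfold GB
    rw [neg_div, ← sub_eq_add_neg, div_mul_div_comm, one_le_div (by positivity), ← sq]
    exact hsq
  set G := GB β T U a with hG
  set G' := GB β T U (-a) with hG'
  -- `1 ≤ (E G + e) G`
  have h4 : 1 ≤ (Real.exp (β * a) * G + e) * G :=
    hprod.trans (mul_le_mul_of_nonneg_right g2 hG0)
  by_contra hcon
  push Not at hcon
  have h5 : G < q - ε := hcon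
  have h6 : G * G ≤ (q - ε) * (q - ε) := mul_self_le_mul_self hG0 h5.le
  have h7 : Real.exp (β * a) * (G * G) ≤ Real.exp (β * a) * ((q - ε) * (q - ε)) :=
    mul_le_mul_of_nonneg_left h6 (Real.exp_pos _).le
  have h8 : Real.exp (β * a) * ((q - ε) * (q - ε)) ≤ 1 - ε := by
    have hqε : 0 ≤ q - ε := by linarith
    have h9 : (q - ε) * (q - ε) ≤ q * q * (1 - ε) := by
      have : q - ε ≤ q * (1 - ε) := by nlinarith
      calc (q - ε) * (q - ε) ≤ q * (q * (1 - ε)) := mul_le_mul (by linarith) this hqε hq0.le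
        _ = _ := by ring
    calc Real.exp (β * a) * ((q - ε) * (q - ε)) ≤ Real.exp (β * a) * (q * q * (1 - ε)) :=
          mul_le_mul_of_nonneg_left h9 (Real.exp_pos _).le
      _ = (Real.exp (β * a) * (q * q)) * (1 - ε) := by ring
      _ = _ := by rw [hE, one_mul]
  have h10 : e * G ≤ ε / 2 := by
    have : G ≤ 1 := by linarith
    nlinarith
  nlinarith

/-- The lower bound. -/
theorem lower {β : ℝ} (hβ : 0 < β) (a : ℝ) {ε : ℝ} (hε : 0 < ε) :
    ∀ᶠ T : ℝ in atTop, ∀ U : ℝ, Adm T U →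
      (Real.exp (-(β * a) / 2) - ε) * MB β T U (1 / 2) ≤ MB β T U (1 / 2 + a / Real.log T) := by
  refine pass_low hβ (Real.exp_pos _).le (fun e he => ?_) hε
  rcases lt_trichotomy a 0 with ha | ha | ha
  · -- to the left of the line
    set b := -a with hb
    have hb0 : 0 < b := by rw [hb]; linarith
    have hab : a = -b := by rw [hb, neg_neg]
    set E := Real.exp (β * b) with hE
    have hE0 : 0 < E := Real.exp_pos _
    have hE1 : 1 ≤ E := Real.one_le_exp (by positivity)
    set d := min (1 / 4) (e / (20 * E)) with hd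
    have hd0 : 0 < d := lt_min (by norm_num) (by positivity)
    have hd1 : d ≤ 1 / 4 := min_le_left _ _
    have hd2 : 20 * E * d ≤ e := by
      have : d ≤ e / (20 * E) := min_le_right _ _
      rwa [le_div_iff₀' (by positivity)] at this
    filter_upwards [GB_low hβ hb0 (show 0 < e / (2 * E) by positivity), F1 hβ b hd0,
      F1 hβ (-b) hd0, F2 hβ hb0.le hd0, GB_le hβ hb0.le one_pos, eventually_ge_atTop 3]
      with T h1 h2 h3 h4 h5 hT U hA
    have g1 := h1 U hA
    have g2 := (abs_le.mp (h2 U hA)).2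
    have g3 := (abs_le.mp (h3 U hA)).1
    have g4 := (abs_le.mp (h4 U hA)).2
    have g5 := h5 U hA
    have hT0 : 0 < T := by linarith
    have hG := GB_nonneg β T U b
    have hG' := GB_nonneg β T U (-b)
    have hJ := JB_nonneg β hT0 U b
    rw [hab]
    set G := GB β T U b
    set G' := GB β T U (-b)
    set J := JB β T U b
    set J' := JB β T U (-b)
    have hexp : Real.exp (-(β * -b) / 2) = E * Real.exp (-(β * b) / 2) := by
      rw [hE, ← Real.exp_add]
      congr 1
      ring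
    rw [hexp]
    -- `J ≥ (1 - d) G - d`, `J' ≥ (1 - d) E J - d`, `G' (1 + d) ≥ J' - d`
    have q1 : (1 - d) * G - d ≤ J := by linarith
    have q2 : (1 - d) * (E * J) - d ≤ J' := by linarith
    have q3 : J' ≤ (1 + d) * G' + d := by linarith
    have q4 : E * ((1 - d) * G - d) ≤ E * J := mul_le_mul_of_nonneg_left q1 hE0.le
    have q5 : (1 - d) * (E * ((1 - d) * G - d)) ≤ (1 - d) * (E * J) :=
      mul_le_mul_of_nonneg_left q4 (by linarith)
    have q6 : E * (Real.exp (-(β * b) / 2) - e / (2 * E)) ≤ E * G :=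
      mul_le_mul_of_nonneg_left g1 hE0.le
    have q7 : E * (Real.exp (-(β * b) / 2) - e / (2 * E)) = E * Real.exp (-(β * b) / 2) - e / 2 := by
      field_simp
    -- `(1 + d) G' ≥ (1 - d) ^ 2 E G - E d - 2 d`
    have q8 : (1 - d) ^ 2 * (E * G) - E * d - 2 * d ≤ (1 + d) * G' := by
      have e5 : (1 - d) * (E * ((1 - d) * G - d)) =
          (1 - d) ^ 2 * (E * G) - E * d + d * (E * d) := by ring
      have e6 : 0 ≤ d * (E * d) := by positivity
      linarith
    have q9 : (1 - 3 * d) * (E * G) - E * d - 2 * d ≤ G' := by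
      rcases le_total ((1 - 3 * d) * (E * G) - E * d - 2 * d) 0 with hz | hz
      · linarith
      · have h10 : (1 + d) * ((1 - 3 * d) * (E * G) - E * d - 2 * d) ≤
            (1 - d) ^ 2 * (E * G) - E * d - 2 * d := by
          have hEG : 0 ≤ E * G := by positivity
          nlinarith [mul_nonneg hd0.le hEG, mul_nonneg (mul_nonneg hd0.le hd0.le) hEG,
            mul_pos hE0 (mul_pos hd0 hd0)]
        have := h10.trans q8
        exact le_of_mul_le_mul_left this (by linarith)
    have q10 : d * (E * G) ≤ 2 * E * d := by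
      have : E * G ≤ E * 2 := mul_le_mul_of_nonneg_left (by linarith) hE0.le
      nlinarith
    have q11 : d ≤ E * d := by nlinarith
    nlinarith
  · subst ha
    refine Eventually.of_forall fun T U hA => ?_
    rw [GB_zero hβ hA, mul_zero, neg_zero, zero_div, Real.exp_zero]
    linarith
  · exact GB_low hβ ha he

end

end Q97.RG
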