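import Pool.Agent.Q97.RG.Cs
import Pool.Agent.Q97.RG.Ex
import Pool.Agent.Q97.BS.Brn

set_option autoImplicit false

open MeasureTheory Filter Topology Complex Set FourierTransform
open scoped ENNReal

namespace Q97.RG

open Q97.MM Q97.BS

noncomputable section

theorem cosh_le (x ψ : ℝ) : ‖Complex.cosh (x - ψ * I)‖ ≤ Real.exp |x| := by
  rw [Complex.cosh, norm_div]
  have h1 := norm_add_le (cexp (x - ψ * I)) (cexp (-(x - ψ * I)))
  have e1 : ‖cexp (x - ψ * I)‖ = Real.exp x := by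
    rw [Complex.norm_exp]; simp
  have e2 : ‖cexp (-(x - ψ * I))‖ = Real.exp (-x) := by
    rw [Complex.norm_exp]; simp
  rw [e1, e2] at h1
  have h2 : Real.exp x ≤ Real.exp |x| := Real.exp_le_exp.2 (le_abs_self x)
  have h3 : Real.exp (-x) ≤ Real.exp |x| := Real.exp_le_exp.2 (neg_le_abs x)
  have e3 : ‖(2 : ℂ)‖ = 2 := by simp
  rw [e3, div_le_iff₀ (by norm_num)]
  linarith

/-- the multiplier of the truncated formula -/
def mt (a b ψ : ℝ) (F : Finset ℤ) (ξ : ℝ) : ℂ :=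
  Complex.cosh (a * ξ - ψ * I) - ∑ n ∈ F, cc (a * b) ψ n * cexp ((ξ / b : ℝ) * vn (th (a * b) ψ) n * I)

theorem mt_in {a b : ℝ} (ha : 0 < a) (hb : 0 < b) (ψ : ℝ) (F : Finset ℤ) {ξ : ℝ} (hξ : |ξ| ≤ b) :
    ‖mt a b ψ F ξ‖ ≤ ‖Complex.cosh ((a * b : ℝ) - ψ * I)‖ - ∑ n ∈ F, ‖cc (a * b) ψ n‖ := by
  have hA : 0 < a * b := by positivity
  have hx : |ξ / b| ≤ 1 := by
    rw [abs_div, abs_of_pos hb, div_le_one hb]
    exact hξ
  have h1 := interp hA ψ hx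
  have e1 : (((a * b : ℝ) : ℂ) * ((ξ / b : ℝ) : ℂ) - ψ * I) = a * ξ - ψ * I := by
    have : (b : ℂ) ≠ 0 := by exact_mod_cast hb.ne'
    push_cast
    field_simp
  rw [e1] at h1
  set f : ℤ → ℂ := fun n => cc (a * b) ψ n * cexp ((ξ / b : ℝ) * vn (th (a * b) ψ) n * I) with hf
  have h2 := cc_sum hA ψ
  have h3 : HasSum (fun x : {x // x ∉ F} => f x) (mt a b ψ F ξ) := by
    rw [F.hasSum_compl_iff]
    have : mt a b ψ F ξ + ∑ n ∈ F, f n = Complex.cosh (a * ξ - ψ * I) := by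
      unfold mt
      rw [sub_add_cancel]
    rw [this]
    exact h1
  have h4 : HasSum (fun x : {x // x ∉ F} => ‖cc (a * b) ψ x‖)
      (‖Complex.cosh ((a * b : ℝ) - ψ * I)‖ - ∑ n ∈ F, ‖cc (a * b) ψ n‖) := by
    rw [F.hasSum_compl_iff (f := fun n => ‖cc (a * b) ψ n‖), sub_add_cancel]
    exact h2
  rw [← h3.tsum_eq]
  refine tsum_of_norm_bounded h4 fun n => ?_
  rw [hf, norm_mul]
  have : ‖cexp ((ξ / b : ℝ) * vn (th (a * b) ψ) n * I)‖ = 1 := by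
    rw [← Complex.ofReal_mul]
    exact Complex.norm_exp_ofReal_mul_I _
  rw [this, mul_one]

theorem cc_partial {A : ℝ} (hA : 0 < A) (ψ : ℝ) (F : Finset ℤ) :
    ∑ n ∈ F, ‖cc A ψ n‖ ≤ ‖Complex.cosh (A - ψ * I)‖ :=
  sum_le_hasSum _ (fun n _ => norm_nonneg _) (cc_sum hA ψ)

theorem mt_out {a b : ℝ} (ha : 0 < a) (hb : 0 < b) (ψ : ℝ) (F : Finset ℤ) {ξ : ℝ} (hξ : b < |ξ|) :
    ‖mt a b ψ F ξ‖ ≤ 2 * Real.exp (a * |ξ|) := by
  have hA : 0 < a * b := by positivity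
  unfold mt
  refine (norm_sub_le _ _).trans ?_
  have h1 : ‖Complex.cosh (a * ξ - ψ * I)‖ ≤ Real.exp (a * |ξ|) := by
    have h2 := cosh_le (a * ξ) ψ
    rw [abs_mul, abs_of_pos ha] at h2
    push_cast at h2
    exact h2
  have h2 : ‖∑ n ∈ F, cc (a * b) ψ n * cexp ((ξ / b : ℝ) * vn (th (a * b) ψ) n * I)‖ ≤
      Real.exp (a * |ξ|) := by
    refine (norm_sum_le _ _).trans ?_
    have h3 : ∀ n ∈ F, ‖cc (a * b) ψ n * cexp ((ξ / b : ℝ) * vn (th (a * b) ψ) n * I)‖ =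
        ‖cc (a * b) ψ n‖ := by
      intro n _
      rw [norm_mul]
      have : ‖cexp ((ξ / b : ℝ) * vn (th (a * b) ψ) n * I)‖ = 1 := by
        rw [← Complex.ofReal_mul]
        exact Complex.norm_exp_ofReal_mul_I _
      rw [this, mul_one]
    rw [Finset.sum_congr rfl h3]
    refine (cc_partial hA ψ F).trans ((cosh_le _ _).trans ?_)
    rw [abs_of_pos hA]
    apply Real.exp_le_exp.2
    exact mul_le_mul_of_nonneg_left hξ.le ha.le
  linarith

/-- the function with the multiplier `cosh (a ξ - i ψ)` -/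
def hf (g : ℝ → ℂ) (a ψ x : ℝ) : ℂ := ∫ ξ : ℝ, Complex.cosh (a * ξ - ψ * I) * (ee (ξ * x) * 𝓕 g ξ)

/-- The truncated interpolation formula. -/
theorem trunc {g : ℝ → ℂ} {a b η η₁ : ℝ} (ha : 0 < a) (hb : 0 < b) (hg : Band g b η)
    (hi : Integrable (fun ξ => Real.exp (a * |ξ|) * ‖𝓕 g ξ‖))
    (hη : ∫ ξ in {ξ : ℝ | b < |ξ|}, Real.exp (a * |ξ|) * ‖𝓕 g ξ‖ ≤ η₁) (ψ : ℝ) {e : ℝ} (he : 0 < e) :
    ∃ F : Finset ℤ, ∀ x : ℝ, ‖hf g a ψ x‖ ≤ ∑ n ∈ F, ‖cc (a * b) ψ n‖ *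
      ‖g (x + vn (th (a * b) ψ) n / (2 * Real.pi * b))‖ + (2 * η₁ + e) := by
  have hπ := Real.pi_pos
  have hA : 0 < a * b := by positivity
  set B := ∫ ξ, ‖𝓕 g ξ‖ with hB
  have hB0 : 0 ≤ B := integral_nonneg fun ξ => norm_nonneg _
  set σ := ‖Complex.cosh ((a * b : ℝ) - ψ * I)‖ with hσ
  have h1 : Tendsto (fun F : Finset ℤ => ∑ n ∈ F, ‖cc (a * b) ψ n‖) atTop (𝓝 σ) := cc_sum hA ψ
  have h2 : Tendsto (fun F : Finset ℤ => (σ - ∑ n ∈ F, ‖cc (a * b) ψ n‖) * B) atTop (𝓝 0) := by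
    have h3 := (tendsto_const_nhds (x := σ)).sub h1
    rw [sub_self] at h3
    have h4 := h3.mul_const B
    rwa [zero_mul] at h4
  obtain ⟨F, hF⟩ := (h2.eventually (gt_mem_nhds he)).exists
  refine ⟨F, fun x => ?_⟩
  have hcI : ∀ z : ℝ, Integrable (fun ξ => ee (ξ * z) * 𝓕 g ξ) := by
    intro z
    refine hg.fint.norm.mono' ?_ (Eventually.of_forall fun ξ => ?_)
    · have := ee_continuous
      exact (Continuous.aestronglyMeasurable (by fun_prop)).mul hg.fint.aestronglyMeasurable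
    · rw [norm_mul, ee_norm, one_mul]
  have hdI : Integrable (fun ξ : ℝ => Complex.cosh (a * ξ - ψ * I) * (ee (ξ * x) * 𝓕 g ξ)) := by
    refine hi.mono' ?_ (Eventually.of_forall fun ξ => ?_)
    · have := ee_continuous
      exact (Continuous.aestronglyMeasurable (by fun_prop)).mul
        ((Continuous.aestronglyMeasurable (by fun_prop)).mul hg.fint.aestronglyMeasurable)
    · rw [norm_mul, norm_mul, ee_norm, one_mul]
      apply mul_le_mul_of_nonneg_right _ (norm_nonneg _)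
      have h5 := cosh_le (a * ξ) ψ
      rw [abs_mul, abs_of_pos ha] at h5
      push_cast at h5
      exact h5
  have hrep : hf g a ψ x - ∑ n ∈ F, cc (a * b) ψ n *
      g (x + vn (th (a * b) ψ) n / (2 * Real.pi * b)) =
      ∫ ξ : ℝ, mt a b ψ F ξ * (ee (ξ * x) * 𝓕 g ξ) := by
    have e1 : ∀ n : ℤ, cc (a * b) ψ n * g (x + vn (th (a * b) ψ) n / (2 * Real.pi * b)) =
        ∫ ξ : ℝ, cc (a * b) ψ n * (ee (ξ * (x + vn (th (a * b) ψ) n / (2 * Real.pi * b))) * 𝓕 g ξ) := by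
      intro n
      rw [integral_const_mul, ← hg.inv]
    simp_rw [e1]
    have hkI : ∀ n : ℤ, Integrable (fun ξ : ℝ => cc (a * b) ψ n *
        (ee (ξ * (x + vn (th (a * b) ψ) n / (2 * Real.pi * b))) * 𝓕 g ξ)) := fun n =>
      (hcI _).const_mul _
    rw [← integral_finsetSum _ (fun n _ => hkI n)]
    rw [hf, ← integral_sub hdI (integrable_finsetSum _ fun n _ => hkI n)]
    refine integral_congr_ae (Eventually.of_forall fun ξ => ?_)
    simp only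
    unfold mt
    rw [sub_mul, Finset.sum_mul]
    congr 1
    refine Finset.sum_congr rfl fun n _ => ?_
    have e2 : ee (ξ * (x + vn (th (a * b) ψ) n / (2 * Real.pi * b))) =
        cexp ((ξ / b : ℝ) * vn (th (a * b) ψ) n * I) * ee (ξ * x) := by
      have e3 : ξ * (x + vn (th (a * b) ψ) n / (2 * Real.pi * b)) =
          (ξ * (vn (th (a * b) ψ) n / (2 * Real.pi * b))) + ξ * x := by ring
      rw [e3, ee_add]
      congr 1
      unfold ee
      congr 1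
      have e4 : 2 * Real.pi * (ξ * (vn (th (a * b) ψ) n / (2 * Real.pi * b))) =
          ξ / b * vn (th (a * b) ψ) n := by
        field_simp
      rw [e4]
      push_cast
      ring
    rw [e2]
    ring
  have hm : MeasurableSet {ξ : ℝ | b < |ξ|} := measurableSet_lt measurable_const measurable_norm
  set R := σ - ∑ n ∈ F, ‖cc (a * b) ψ n‖ with hR
  have hR0 : 0 ≤ R := by
    have := cc_partial hA ψ F
    rw [hR]; linarith
  have hbd : ∀ ξ, ‖mt a b ψ F ξ * (ee (ξ * x) * 𝓕 g ξ)‖ ≤ R * ‖𝓕 g ξ‖ +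
      {ξ : ℝ | b < |ξ|}.indicator (fun ξ => 2 * (Real.exp (a * |ξ|) * ‖𝓕 g ξ‖)) ξ := by
    intro ξ
    rw [norm_mul, norm_mul, ee_norm, one_mul]
    by_cases h : b < |ξ|
    · rw [indicator_of_mem (show ξ ∈ {ξ : ℝ | b < |ξ|} from h), ← mul_assoc]
      have h3 := mul_le_mul_of_nonneg_right (mt_out ha hb ψ F h) (norm_nonneg (𝓕 g ξ))
      have h4 : 0 ≤ R * ‖𝓕 g ξ‖ := by positivity
      linarith
    · rw [indicator_of_notMem (show ξ ∉ {ξ : ℝ | b < |ξ|} from h), add_zero]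
      exact mul_le_mul_of_nonneg_right (mt_in ha hb ψ F (not_lt.mp h)) (norm_nonneg _)
  have hIbd : Integrable (fun ξ => R * ‖𝓕 g ξ‖ +
      {ξ : ℝ | b < |ξ|}.indicator (fun ξ => 2 * (Real.exp (a * |ξ|) * ‖𝓕 g ξ‖)) ξ) :=
    (hg.fint.norm.const_mul R).add ((hi.const_mul 2).indicator hm)
  have hfin := norm_integral_le_of_norm_le hIbd (Eventually.of_forall hbd)
  rw [integral_add (hg.fint.norm.const_mul R) ((hi.const_mul 2).indicator hm),
    integral_indicator hm, integral_const_mul, integral_const_mul, ← hrep] at hfin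
  have h5 : ‖∑ n ∈ F, cc (a * b) ψ n * g (x + vn (th (a * b) ψ) n / (2 * Real.pi * b))‖ ≤
      ∑ n ∈ F, ‖cc (a * b) ψ n‖ * ‖g (x + vn (th (a * b) ψ) n / (2 * Real.pi * b))‖ := by
    refine (norm_sum_le _ _).trans (Finset.sum_le_sum fun n _ => ?_)
    rw [norm_mul]
  have h6 := norm_sub_norm_le (hf g a ψ x) (∑ n ∈ F, cc (a * b) ψ n *
    g (x + vn (th (a * b) ψ) n / (2 * Real.pi * b)))
  linarith

theorem jensen' {ι : Type*} {β σ : ℝ} (hβ : 1 ≤ β) {s : Finset ι} {w z : ι → ℝ}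
    (hw : ∀ i, 0 ≤ w i) (hz : ∀ i, 0 ≤ z i) (hσ : ∑ i ∈ s, w i ≤ σ) :
    (∑ i ∈ s, w i * z i) ^ β ≤ σ ^ (β - 1) * ∑ i ∈ s, w i * z i ^ β := by
  set W := ∑ i ∈ s, w i with hW
  have hW0 : 0 ≤ W := Finset.sum_nonneg fun i _ => hw i
  have hR : 0 ≤ ∑ i ∈ s, w i * z i ^ β :=
    Finset.sum_nonneg fun i _ => mul_nonneg (hw i) (Real.rpow_nonneg (hz i) _)
  rcases eq_or_lt_of_le hW0 with h0 | h0
  · have h1 : ∀ i ∈ s, w i = 0 := (Finset.sum_eq_zero_iff_of_nonneg fun i _ => hw i).mp h0.symm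
    have h2 : ∑ i ∈ s, w i * z i = 0 := Finset.sum_eq_zero fun i hi => by rw [h1 i hi, zero_mul]
    rw [h2, Real.zero_rpow (by linarith)]
    exact mul_nonneg (Real.rpow_nonneg (hW0.trans hσ) _) hR
  · have h1 := Real.rpow_arith_mean_le_arith_mean_rpow s (fun i => w i / W) z
      (fun i _ => div_nonneg (hw i) hW0) (by rw [← Finset.sum_div, ← hW, div_self h0.ne'])
      (fun i _ => hz i) hβ
    have e1 : ∑ i ∈ s, w i * z i = W * ∑ i ∈ s, w i / W * z i := by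
      rw [Finset.mul_sum]
      refine Finset.sum_congr rfl fun i _ => ?_
      field_simp
    have e2 : ∑ i ∈ s, w i / W * z i ^ β = (1 / W) * ∑ i ∈ s, w i * z i ^ β := by
      rw [Finset.mul_sum]
      refine Finset.sum_congr rfl fun i _ => ?_
      ring
    have h2 : 0 ≤ ∑ i ∈ s, w i / W * z i :=
      Finset.sum_nonneg fun i _ => mul_nonneg (div_nonneg (hw i) hW0) (hz i)
    rw [e1, Real.mul_rpow hW0 h2]
    rw [e2] at h1
    have h3 : W ^ β * (1 / W) ≤ σ ^ (β - 1) := by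
      have e3 : W ^ β * (1 / W) = W ^ (β - 1) := by
        rw [Real.rpow_sub_one h0.ne']
        ring
      rw [e3]
      exact Real.rpow_le_rpow hW0 hσ (by linarith)
    calc W ^ β * (∑ i ∈ s, w i / W * z i) ^ β ≤ W ^ β * ((1 / W) * ∑ i ∈ s, w i * z i ^ β) := by
          gcongr
      _ = (W ^ β * (1 / W)) * ∑ i ∈ s, w i * z i ^ β := by ring
      _ ≤ _ := mul_le_mul_of_nonneg_right h3 hR

/-- The inequality in the mean, for each phase. -/
theorem mean_psi {β a b ε C : ℝ} (hβ : 1 ≤ β) (ha : 0 < a) (hb : 0 < b) (hε : 0 < ε) (hC : 0 < C)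
    (hel : ∀ a b : ℝ, 0 ≤ a → 0 ≤ b → (a + b) ^ β ≤ (1 + ε) * a ^ β + C * b ^ β)
    {g : ℝ → ℂ} {η η₁ : ℝ} (hg : Band g b η)
    (hi : Integrable (fun ξ => Real.exp (a * |ξ|) * ‖𝓕 g ξ‖))
    (hη : ∫ ξ in {ξ : ℝ | b < |ξ|}, Real.exp (a * |ξ|) * ‖𝓕 g ξ‖ ≤ η₁) (ψ : ℝ) {e : ℝ} (he : 0 < e)
    (E : Set ℝ) :
    ∫⁻ x in E, ‖hf g a ψ x‖ₑ ^ β ≤
      ENNReal.ofReal ((1 + ε) * ‖Complex.cosh ((a * b : ℝ) - ψ * I)‖ ^ β) * (∫⁻ x, ‖g x‖ₑ ^ β) +
        ENNReal.ofReal (C * (2 * η₁ + e) ^ β) * volume E := by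
  have hA : 0 < a * b := by positivity
  have hβ0 : 0 < β := by linarith
  obtain ⟨F, hF⟩ := trunc ha hb hg hi hη ψ he
  have hη0 : 0 ≤ η₁ := le_trans (integral_nonneg fun ξ => by positivity) hη
  set R := 2 * η₁ + e with hR
  have hR0 : 0 ≤ R := by positivity
  set σ := ‖Complex.cosh ((a * b : ℝ) - ψ * I)‖ with hσ
  have hσ0 : 0 ≤ σ := norm_nonneg _
  set u : ℤ → ℝ := fun n => vn (th (a * b) ψ) n / (2 * Real.pi * b) with hu
  set c : ℤ → ℝ := fun n => ‖cc (a * b) ψ n‖ with hc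
  have hc0 : ∀ n, 0 ≤ c n := fun n => norm_nonneg _
  -- pointwise
  have hpt : ∀ x, ‖hf g a ψ x‖ ^ β ≤ (1 + ε) * (σ ^ (β - 1) * ∑ n ∈ F, c n *
      ‖g (x + u n)‖ ^ β) + C * R ^ β := by
    intro x
    have h1 := hF x
    set S := ∑ n ∈ F, c n * ‖g (x + u n)‖ with hS
    have hS0 : 0 ≤ S := Finset.sum_nonneg fun n _ => mul_nonneg (hc0 n) (norm_nonneg _)
    have h2 : ‖hf g a ψ x‖ ^ β ≤ (S + R) ^ β := Real.rpow_le_rpow (norm_nonneg _) h1 hβ0.le
    refine h2.trans ((hel S R hS0 hR0).trans ?_)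
    have h3 : S ^ β ≤ σ ^ (β - 1) * ∑ n ∈ F, c n * ‖g (x + u n)‖ ^ β :=
      jensen' hβ hc0 (fun n => norm_nonneg _) (cc_partial hA ψ F)
    have h4 := mul_le_mul_of_nonneg_left h3 (show 0 ≤ 1 + ε by linarith)
    linarith
  have hpt' : ∀ x, ‖hf g a ψ x‖ₑ ^ β ≤ ENNReal.ofReal ((1 + ε) * σ ^ (β - 1)) *
      ∑ n ∈ F, ENNReal.ofReal (c n) * ‖g (x + u n)‖ₑ ^ β + ENNReal.ofReal (C * R ^ β) := by
    intro x
    rw [enorm_rpow (g := hf g a ψ) hβ0]
    refine (ENNReal.ofReal_le_ofReal (hpt x)).trans (le_of_eq ?_)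
    rw [← mul_assoc, ENNReal.ofReal_add (mul_nonneg (by positivity)
      (Finset.sum_nonneg fun n _ => mul_nonneg (hc0 n) (by positivity))) (by positivity),
      ENNReal.ofReal_mul (by positivity), ENNReal.ofReal_sum_of_nonneg
      (fun n _ => mul_nonneg (hc0 n) (by positivity))]
    congr 2
    refine Finset.sum_congr rfl fun n _ => ?_
    rw [ENNReal.ofReal_mul (hc0 n), enorm_rpow hβ0]
  set A := ∫⁻ x, ‖g x‖ₑ ^ β with hAd
  have hm1 : ∀ n : ℤ, Measurable (fun x => ‖g (x + u n)‖ₑ ^ β) := fun n =>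
    (meas_rpow hg.cont β).comp (measurable_id.add_const _)
  have hm : Measurable (fun x => ∑ n ∈ F, ENNReal.ofReal (c n) * ‖g (x + u n)‖ₑ ^ β) :=
    Finset.measurable_sum _ fun n _ => (hm1 n).const_mul _
  refine (lintegral_mono hpt').trans ?_
  rw [lintegral_add_right _ measurable_const, setLIntegral_const, lintegral_const_mul _ hm]
  apply add_le_add _ le_rfl
  have h1 : ∫⁻ x in E, ∑ n ∈ F, ENNReal.ofReal (c n) * ‖g (x + u n)‖ₑ ^ β ≤ ENNReal.ofReal σ * A := by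
    refine (setLIntegral_le_lintegral _ _).trans ?_
    rw [lintegral_finsetSum _ (fun n _ => (hm1 n).const_mul _)]
    have h2 : ∀ n ∈ F, ∫⁻ x, ENNReal.ofReal (c n) * ‖g (x + u n)‖ₑ ^ β = ENNReal.ofReal (c n) * A := by
      intro n _
      rw [lintegral_const_mul _ (hm1 n), lintegral_add_right_eq_self (fun x => ‖g x‖ₑ ^ β)]
    rw [Finset.sum_congr rfl h2, ← Finset.sum_mul, ← ENNReal.ofReal_sum_of_nonneg
      (fun n _ => hc0 n)]
    exact mul_le_mul_left (ENNReal.ofReal_le_ofReal (cc_partial hA ψ F)) _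
  refine (mul_le_mul_right h1 _).trans (le_of_eq ?_)
  rw [← mul_assoc, ← ENNReal.ofReal_mul (by positivity)]
  congr 2
  rcases eq_or_lt_of_le hσ0 with h0 | h0
  · rw [← h0, mul_zero, Real.zero_rpow hβ0.ne', mul_zero]
  · rw [mul_assoc, Real.rpow_sub_one h0.ne', div_mul_cancel₀ _ h0.ne']

end

end Q97.RG
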